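import Pool.Agent.X121.PR.Prm
import Pool.Agent.X121.ZS.Fin2
import Pool.Agent.X121.WN.Single

set_option autoImplicit false

/-! # The digits of roots of primes -/

namespace Pool.Agent.X121.PR

open Finset Filter MeasureTheory Pool.Agent.X121.ZS Pool.Agent.X121.AB Pool.Agent.X121.TV
open Pool.Agent.Y93.VK (ee ee_add norm_ee ee_zero ee_neg ee_eq)

open Classical in
theorem main_tvP {θ : ℝ} (hθ0 : 0 < θ) (hθ : ∀ m : ℕ, θ ≠ m) :
    ∃ N₀ : ℕ, ∀ N : ℕ, N₀ ≤ N → (PS N).Nonempty ∧ ∀ ω c : ℝ, 1 ≤ |ω| →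
      |ω| ≤ Real.exp ((Real.log N) ^ (9 / 8 : ℝ)) → ∀ (ι : Type) [Fintype ι] (q : ι → ℤ) (m : ι → ℕ),
      (Fintype.card ι : ℝ) ≤ (Real.log N) ^ (1 / 8 : ℝ) → (∀ i, q i ≠ 0) →
      (∀ i, (|q i| : ℝ) ≤ Real.exp ((Real.log N) ^ (9 / 8 : ℝ))) →
      (∀ i, 1 ≤ m i) → (∀ i, (m i : ℝ) ≤ Real.exp ((Real.log N) ^ (1 / 8 : ℝ))) → ∀ E : Set (ι → ℕ),
      |(((PS N).filter fun b : ℕ => cl m q (ω * (b : ℝ) ^ θ + c) ∈ E).card : ℝ) / (PS N).card -
        U.real {x | cl m q x ∈ E}| ≤ Real.exp (-((Real.log N) ^ (1 / 8 : ℝ))) := by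
  have ht : Tendsto (fun y : ℝ => y / 2) atTop atTop := tendsto_id.atTop_div_const (by norm_num)
  obtain ⟨N₀, hN₀⟩ := to_log2 (((ht.eventually tv_asm).and (prm hθ0 hθ)).mono
    fun y h N hN => (⟨h.1, h.2 N hN⟩ : _ ∧ _)) ((512 : ℝ) ^ 4)
  refine ⟨N₀, fun N hN => ?_⟩
  obtain ⟨y, hy256, hy1, hNy, ⟨htv, hne, hsum⟩, e1, e2⟩ := hN₀ N hN
  refine ⟨hne, fun ω c hω1 hω2 ι _ q m hD hq0 hq hm1 hm E => ?_⟩
  have hy0 : (0 : ℝ) < y := by linarith
  rw [e1] at hD hm ⊢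
  rw [e2] at hω2 hq
  obtain ⟨A, hA⟩ : ∃ A : ℝ, A = y ^ (315 / 4 : ℝ) := ⟨_, rfl⟩
  rw [← hA] at hω2 hq
  have hq512 : (512 : ℝ) ≤ y ^ (1 / 4 : ℝ) := by
    calc (512 : ℝ) = ((512 : ℝ) ^ 4) ^ (1 / 4 : ℝ) := by
          rw [← Real.rpow_natCast, ← Real.rpow_mul (by norm_num)]
          norm_num
      _ ≤ y ^ (1 / 4 : ℝ) := Real.rpow_le_rpow (by norm_num) hy256 (by norm_num)
  have h9 : y ^ (35 / 4 : ℝ) ≤ (y / 2) ^ 9 := by
    have h1 : 512 * y ^ (35 / 4 : ℝ) ≤ y ^ 9 := by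
      calc 512 * y ^ (35 / 4 : ℝ) ≤ y ^ (1 / 4 : ℝ) * y ^ (35 / 4 : ℝ) := by gcongr
        _ = y ^ 9 := by
            rw [← Real.rpow_add hy0, ← Real.rpow_natCast]
            norm_num
    rw [div_pow]
    norm_num
    linarith
  have h79 : 400 * A ≤ y ^ 79 := by
    calc 400 * A ≤ y ^ (1 / 4 : ℝ) * A := by
          have : 0 ≤ A := by rw [hA]; positivity
          gcongr
          linarith
      _ = y ^ 79 := by
          rw [hA, ← Real.rpow_add hy0, ← Real.rpow_natCast]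
          norm_num
  have h10 : (y / 2) ^ 10 ≤ y ^ 10 := pow_le_pow_left₀ (by positivity) (by linarith) 10
  have h99 : (y / 2) ^ 9 ≤ y ^ 9 := pow_le_pow_left₀ (by positivity) (by linarith) 9
  have hA10 : y ^ 9 + y ^ 10 ≤ 2 * A := by
    have h1 : y ^ 10 ≤ A := by
      rw [hA, ← Real.rpow_natCast]
      exact Real.rpow_le_rpow_of_exponent_le hy1 (by norm_num)
    have h2 : y ^ 9 ≤ y ^ 10 := pow_le_pow_right₀ hy1 (by norm_num)
    linarith
  have hmain := htv (PS N) (fun b => ω * (b : ℝ) ^ θ + c) ι q m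
    hne (hD.trans h9) hq0 hm1
    (fun i => (hm i).trans (Real.exp_le_exp.2 h9)) ?_ E
  · refine hmain.trans (Real.exp_le_exp.2 ?_)
    linarith
  · intro h hh h0
    have hshift : ∑ b ∈ PS N, ee ((fr q h : ℝ) * (ω * (b : ℝ) ^ θ + c)) =
        ee ((fr q h : ℝ) * c) * ∑ b ∈ PS N, ee (((fr q h : ℝ) * ω) * (b : ℝ) ^ θ) := by
      rw [Finset.mul_sum]
      refine Finset.sum_congr rfl fun b _ => ?_
      rw [← ee_add]
      congr 1
      ring
    rw [hshift, norm_mul, norm_ee, one_mul]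
    have hfr1 : (1 : ℝ) ≤ |(fr q h : ℝ)| := by
      have := Int.one_le_abs h0
      exact_mod_cast this
    have hprm := hsum ((fr q h : ℝ) * ω) (by rw [abs_mul]; nlinarith) ?_
    · refine hprm.trans ?_
      rw [mul_comm]
      apply mul_le_mul_of_nonneg_right _ (Nat.cast_nonneg _)
      apply Real.exp_le_exp.2
      rw [div_pow]
      have h1 : 0 < y ^ 20 := by positivity
      norm_num
      linarith
    · rw [abs_mul]
      have h1 : |(fr q h : ℝ)| ≤ Real.exp (y ^ 9) * (Real.exp (y ^ 10) * Real.exp A) := by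
        unfold fr
        push_cast
        calc |∑ i, (h i : ℝ) * (q i : ℝ)| ≤ ∑ i, |(h i : ℝ) * (q i : ℝ)| := Finset.abs_sum_le_sum_abs _ _
          _ ≤ ∑ i : ι, (Real.exp (y ^ 10) * Real.exp A) := by
              refine Finset.sum_le_sum fun i _ => ?_
              rw [abs_mul]
              exact mul_le_mul ((hh i).trans (Real.exp_le_exp.2 h10)) (hq i) (abs_nonneg _) (Real.exp_nonneg _)
          _ = Fintype.card ι * (Real.exp (y ^ 10) * Real.exp A) := by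
              rw [Finset.sum_const, Finset.card_univ, nsmul_eq_mul]
          _ ≤ _ := by
              gcongr
              have h2 := Real.add_one_le_exp (y ^ 9)
              linarith
      calc |(fr q h : ℝ)| * |ω| ≤ (Real.exp (y ^ 9) * (Real.exp (y ^ 10) * Real.exp A)) * Real.exp A := by
            gcongr
        _ = Real.exp (y ^ 9 + (y ^ 10 + A) + A) := by
            rw [Real.exp_add, Real.exp_add, Real.exp_add]
        _ ≤ Real.exp (y ^ 79 / 100) := by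
            apply Real.exp_le_exp.2
            linarith

open Classical in
theorem finalP {θ : ℝ} (hθ0 : 0 < θ) (hθ : ∀ m : ℕ, θ ≠ m) :
    ∃ N₀ : ℕ, ∀ N : ℕ, N₀ ≤ N → (PS N).Nonempty ∧ ∀ ω c : ℝ, 1 ≤ |ω| →
      |ω| ≤ Real.exp ((Real.log N) ^ (9 / 8 : ℝ)) →
      (∀ b : ℕ, 2 ≤ b → (b : ℝ) ≤ Real.exp ((Real.log N) ^ (1 / 8 : ℝ)) → ∀ P : Finset ℕ,
        (P.card : ℝ) ≤ (Real.log N) ^ (1 / 8 : ℝ) →
        (∀ n ∈ P, n * Real.log b ≤ (Real.log N) ^ (9 / 8 : ℝ)) →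
        ∀ E : Finset (P → Fin b),
        |(((PS N).filter fun m : ℕ =>
            ∃ w ∈ E, ∀ n : P, digit b n (ω * (m : ℝ) ^ θ + c) = w n).card : ℝ) / (PS N).card -
          E.card / (b : ℝ) ^ P.card| ≤ Real.exp (-((Real.log N) ^ (1 / 8 : ℝ)))) ∧
      (∀ (k : ℕ) (b n : Fin k → ℕ),
        (k : ℝ) ≤ (Real.log N) ^ (1 / 8 : ℝ) → (∀ i, 1 ≤ b i) →
        (∀ i, (b i : ℝ) ≤ Real.exp ((Real.log N) ^ (1 / 8 : ℝ))) →
        (∀ i, n i * Real.log (b i) ≤ (Real.log N) ^ (9 / 8 : ℝ)) → ∀ E : Set (Fin k → ℕ),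
        |(((PS N).filter fun m : ℕ =>
            (fun i => digit (b i) (n i) (ω * (m : ℝ) ^ θ + c)) ∈ E).card : ℝ) / (PS N).card -
          volume.real {x : ℝ | x ∈ Set.Ico (0 : ℝ) 1 ∧ (fun i => digit (b i) (n i) x) ∈ E}| ≤
          Real.exp (-((Real.log N) ^ (1 / 8 : ℝ)))) := by
  obtain ⟨N₀, hN₀⟩ := main_tvP hθ0 hθ
  refine ⟨max N₀ 1, fun N hN => ⟨(hN₀ N (le_of_max_le_left hN)).1, fun ω c hω1 hω2 => ⟨?_, ?_⟩⟩⟩
  · intro b hb2 hb P hP hn E
    have hNN := (hN₀ N (le_of_max_le_left hN)).2 ω c hω1 hω2 P (fun n => (b : ℤ) ^ (n : ℕ))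
      (fun _ => b) (by rw [Fintype.card_coe]; exact hP)
      (fun i => pow_ne_zero _ (by exact_mod_cast (by omega : b ≠ 0))) ?_ (fun _ => by omega)
      (fun _ => hb) {A | ∃ w ∈ E, ∀ n : P, A n = w n}
    · have e1 : ∀ x : ℝ, (cl (fun _ : P => b) (fun n : P => (b : ℤ) ^ (n : ℕ)) x ∈
          {A : P → ℕ | ∃ w ∈ E, ∀ n : P, A n = w n}) ↔ ∃ w ∈ E, ∀ n : P, digit b n x = w n := by
        intro x
        rw [Set.mem_ofPred_eq]
        simp only [cl_digit (fun _ : P => b) (fun n : P => (n : ℕ)) x]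
      simp only [e1] at hNN
      rw [unif_set (by omega) P E] at hNN
      exact hNN
    · intro i
      push_cast
      rw [abs_of_nonneg (by positivity)]
      have hb0 : (0 : ℝ) < b := by exact_mod_cast (by omega : 0 < b)
      calc (b : ℝ) ^ (i : ℕ) = Real.exp (((i : ℕ) : ℝ) * Real.log b) := by
            rw [← Real.log_pow, Real.exp_log (by positivity)]
        _ ≤ _ := Real.exp_le_exp.2 (hn i i.2)
  · intro k b n hk hb1 hb hn E
    have hNN := (hN₀ N (le_of_max_le_left hN)).2 ω c hω1 hω2 (Fin k)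
      (fun i => (b i : ℤ) ^ (n i)) b (by rw [Fintype.card_fin]; exact hk)
      (fun i => pow_ne_zero _ (by have := hb1 i; exact_mod_cast (by omega : b i ≠ 0))) ?_ hb1 hb E
    · have e1 : ∀ x : ℝ, cl b (fun i => (b i : ℤ) ^ (n i)) x = fun i => digit (b i) (n i) x := by
        intro x
        funext i
        exact cl_digit b n x i
      simp only [e1] at hNN
      have e2 : U.real {x : ℝ | (fun i => digit (b i) (n i) x) ∈ E} =
          volume.real {x : ℝ | x ∈ Set.Ico (0 : ℝ) 1 ∧ (fun i => digit (b i) (n i) x) ∈ E} := by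
        have hms : MeasurableSet {x : ℝ | (fun i => digit (b i) (n i) x) ∈ E} := by
          have := set_meas b (fun i => (b i : ℤ) ^ (n i)) E
          simp only [e1] at this
          exact this
        unfold U Measure.real
        rw [Measure.restrict_apply hms]
        congr 2
        ext x
        simp only [Set.mem_inter_iff, Set.mem_ofPred_eq]
        tauto
      rw [e2] at hNN
      exact hNN
    · intro i
      push_cast
      rw [abs_of_nonneg (by positivity)]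
      have hb0 : (0 : ℝ) < b i := by have := hb1 i; exact_mod_cast (by omega : 0 < b i)
      calc (b i : ℝ) ^ (n i) = Real.exp ((n i : ℝ) * Real.log (b i)) := by
            rw [← Real.log_pow, Real.exp_log (by positivity)]
        _ ≤ _ := Real.exp_le_exp.2 (hn i)

open Pool.Agent.X121.WN in
/-- all bases, windows and intervals at once -/
theorem singleP {θ : ℝ} (hθ0 : 0 < θ) (hθ : ∀ m : ℕ, θ ≠ m) {ε : ℝ} (hε : 0 < ε) (hε1 : ε ≤ 1) :
    ∃ c : ℝ, 0 < c ∧ c ≤ 1 ∧ ∃ N₀ : ℕ, ∀ N : ℕ, N₀ ≤ N → ∀ ω y : ℝ,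
      1 ≤ |ω| → |ω| ≤ Real.exp (Real.log N ^ (9 / 8 : ℝ)) →
      ∀ D : Finset ℕ, D ⊆ PS N →
      (∀ n ∈ D, ∃ b : ℕ, 2 ≤ b ∧ (b : ℝ) ≤ Real.exp (c * Real.log N ^ (1 / 8 : ℝ)) ∧
        ¬ WinGood ε (Real.log N ^ (1 / 8 : ℝ)) b (fun j => (j : ℝ) * Real.log b ≤ Real.log N ^ (9 / 8 : ℝ))
          (fun _ : Unit => ω * (n : ℝ) ^ θ + y)) →
      (D.card : ℝ) ≤ Real.exp (-(c * Real.log N ^ (1 / 8 : ℝ))) * (PS N).card := by
  classical
  obtain ⟨c, hc0, hc1, Λ₀, hw⟩ := windows Unit hε hε1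
  obtain ⟨N₁, hN₁⟩ := finalP hθ0 hθ
  obtain ⟨N₂, hN₂⟩ := eighth_ge (max Λ₀ 2)
  refine ⟨c, hc0, hc1, max N₁ (max N₂ 1), fun N hN ω y hω1 hω2 D hDS hD => ?_⟩
  have hf := ((hN₁ N ((le_max_left _ _).trans hN)).2 ω y hω1 hω2).1
  have hΛ := hN₂ N (((le_max_left _ _).trans (le_max_right _ _)).trans hN)
  have hN1 : 1 ≤ N := ((le_max_right _ _).trans (le_max_right _ _)).trans hN
  have hlog : 0 ≤ Real.log N := Real.log_natCast_nonneg N
  have hΛ2 : 2 ≤ Real.log N ^ (1 / 8 : ℝ) := (le_max_right _ _).trans hΛ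
  have hr := rpow_eighth hlog
  obtain ⟨Λ, hΛe⟩ : ∃ Λ, Λ = Real.log N ^ (1 / 8 : ℝ) := ⟨_, rfl⟩
  rw [← hΛe] at hΛ hΛ2 hr hD hf ⊢
  rw [← hr] at hD hf
  have h1 := hw Λ ((le_max_left _ _).trans hΛ) (PS N) (fun n _ => ω * (n : ℝ) ^ θ + y)
    (fun b j => (j : ℝ) * Real.log b ≤ Λ ^ 9)
    (fun b n hb h => adm_le hb hΛ2 h) ?_ D hDS hD
  · exact h1
  · intro b hb2 hbe s R _ hR hadm E
    have hcR : (Finset.Ico s (s + R)).card = R := by rw [Nat.card_Ico]; omega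
    have hPl' : ((Finset.Ico s (s + R)).card : ℝ) ≤ Λ := by
      rw [hcR]
      rw [Fintype.card_unit] at hR
      push_cast at hR
      linarith
    have h2 := hf b hb2 hbe (Finset.Ico s (s + R)) hPl' (fun n hn => hadm n hn) (E.image fun w => w ())
    have hinj : Function.Injective (fun w : Unit → Finset.Ico s (s + R) → Fin b => w ()) := by
      intro w w' h
      funext t
      exact h
    rw [card_image_of_injective _ hinj, hcR] at h2
    have e1 : ((PS N).filter fun m : ℕ => ∃ w ∈ E, ∀ j : Unit, ∀ n : Finset.Ico s (s + R),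
          ⌊(b : ℝ) * Int.fract ((b : ℝ) ^ (n : ℕ) * (ω * (m : ℝ) ^ θ + y))⌋₊ = w j n) =
        ((PS N).filter fun m : ℕ => ∃ w ∈ E.image (fun w => w ()), ∀ n : Finset.Ico s (s + R),
          Pool.Agent.X121.ZS.digit b n (ω * (m : ℝ) ^ θ + y) = w n) := by
      apply filter_congr
      intro m _
      constructor
      · rintro ⟨w, hw, h⟩
        exact ⟨w (), mem_image_of_mem _ hw, fun n => h () n⟩
      · rintro ⟨w, hw, h⟩
        obtain ⟨w', hw', rfl⟩ := mem_image.1 hw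
        exact ⟨w', hw', fun _ n => h n⟩
    rw [e1, Fintype.card_unit, one_mul]
    exact h2

end Pool.Agent.X121.PR
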