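import Pool.Agent.X121.PR.Lam
import Pool.Agent.H295R3.D6.ChebL

set_option autoImplicit false

/-! # Sums over primes -/

namespace Pool.Agent.X121.PR

open Finset Filter Pool.Agent.X121.ZS Pool.Agent.X121.AB
open Pool.Agent.Y93.VK (ee ee_add norm_ee ee_eq)
open Pool.Agent.H373R2.T3 (abel_Ioc)

/-- the primes in `(N, 2 N]` -/
def PS (N : ℕ) : Finset ℕ := (Ioc N (2 * N)).filter Nat.Prime

theorem prime_of_lam (E : ℕ → ℂ) (hE : ∀ n, ‖E n‖ ≤ 1) {N : ℕ} (hN : 2 ≤ N) {B : ℝ}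
    (h : ∀ N', N ≤ N' → N' ≤ 2 * N →
      ‖∑ n ∈ Ioc N N', ((ArithmeticFunction.vonMangoldt n : ℝ) : ℂ) * E n‖ ≤ B) :
    ‖∑ p ∈ PS N, E p‖ ≤ 3 / Real.log N * (B + 2 * √(2 * N) * Real.log (2 * N)) := by
  have hN0 : (2 : ℝ) ≤ N := by exact_mod_cast hN
  have hlog : 0 < Real.log N := Real.log_pos (by linarith)
  obtain ⟨z, hz⟩ : ∃ z : ℕ → ℂ, z = fun n => if n.Prime then ((Real.log n : ℝ) : ℂ) * E n else 0 := ⟨_, rfl⟩
  obtain ⟨P, hP⟩ : ∃ P : ℝ, P = 2 * √(2 * N) * Real.log (2 * N) := ⟨_, rfl⟩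
  have hB0 : 0 ≤ B := (norm_nonneg _).trans (h N le_rfl (by omega))
  have hlog2 : 0 ≤ Real.log (2 * N) := Real.log_nonneg (by linarith)
  have hP0 : 0 ≤ P := by rw [hP]; positivity
  rw [← hP]
  have hz1 : ∀ b' : ℕ, b' ≤ 2 * N → ‖∑ l ∈ Ioc N b', z l‖ ≤ B + P := by
    intro b' hb'
    rcases Nat.lt_or_ge b' N with hlt | hge
    · rw [Ioc_eq_empty (by omega), sum_empty, norm_zero]
      positivity
    have e1 : ∑ l ∈ Ioc N b', z l = ∑ n ∈ Ioc N b', ((ArithmeticFunction.vonMangoldt n : ℝ) : ℂ) * E n -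
        ∑ n ∈ (Ioc N b').filter (fun n => ¬ n.Prime), ((ArithmeticFunction.vonMangoldt n : ℝ) : ℂ) * E n := by
      rw [sum_filter, ← sum_sub_distrib]
      refine sum_congr rfl fun n _ => ?_
      rw [hz]
      simp only
      by_cases h1 : n.Prime
      · rw [if_pos h1, if_neg (not_not.2 h1), ArithmeticFunction.vonMangoldt_apply_prime h1, sub_zero]
      · rw [if_neg h1, if_pos h1, sub_self]
    rw [e1]
    refine (norm_sub_le _ _).trans (add_le_add (h b' hge hb') ?_)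
    have hx := Chebyshev.psi_sub_theta_le (x := ((2 * N : ℕ) : ℝ)) (by push_cast; linarith)
    rw [Chebyshev.psi_sub_theta_eq_sum_not_prime, Nat.floor_natCast] at hx
    calc ‖∑ n ∈ (Ioc N b').filter (fun n => ¬ n.Prime), ((ArithmeticFunction.vonMangoldt n : ℝ) : ℂ) * E n‖ ≤
        ∑ n ∈ (Ioc N b').filter (fun n => ¬ n.Prime), ArithmeticFunction.vonMangoldt n := by
          refine (norm_sum_le _ _).trans (sum_le_sum fun n _ => ?_)
          rw [norm_mul, Complex.norm_real, Real.norm_eq_abs,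
            abs_of_nonneg ArithmeticFunction.vonMangoldt_nonneg]
          exact mul_le_of_le_one_right ArithmeticFunction.vonMangoldt_nonneg (hE n)
      _ ≤ ∑ n ∈ (Ioc 0 (2 * N)).filter (fun n => ¬ n.Prime), ArithmeticFunction.vonMangoldt n := by
          apply sum_le_sum_of_subset_of_nonneg
          · intro n hn
            rw [mem_filter, mem_Ioc] at hn ⊢
            exact ⟨⟨by omega, by omega⟩, hn.2⟩
          · intro n _ _
            exact ArithmeticFunction.vonMangoldt_nonneg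
      _ ≤ _ := hx
      _ = P := by rw [hP]; push_cast; ring_nf
  obtain ⟨w, hw⟩ : ∃ w : ℕ → ℝ, w = fun n => 1 / Real.log N - 1 / Real.log (max n N : ℕ) := ⟨_, rfl⟩
  have hmono : Monotone w := by
    intro a b hab
    rw [hw]
    simp only
    have h1 : 0 < Real.log ((max a N : ℕ) : ℝ) := by
      apply Real.log_pos
      exact_mod_cast (by omega : 1 < max a N)
    have h2 : Real.log ((max a N : ℕ) : ℝ) ≤ Real.log ((max b N : ℕ) : ℝ) := by
      apply Real.log_le_log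
      · exact_mod_cast (by omega : 0 < max a N)
      · exact_mod_cast max_le_max_right N hab
    have := one_div_le_one_div_of_le h1 h2
    linarith
  have hw0 : ∀ n, 0 ≤ w n := by
    intro n
    rw [hw]
    simp only
    have h2 : Real.log N ≤ Real.log ((max n N : ℕ) : ℝ) := by
      apply Real.log_le_log (by linarith)
      exact_mod_cast le_max_right n N
    have := one_div_le_one_div_of_le hlog h2
    linarith
  have hwle : w (2 * N) ≤ 1 / Real.log N := by
    rw [hw]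
    simp only
    have : 0 ≤ 1 / Real.log ((max (2 * N) N : ℕ) : ℝ) := by
      apply div_nonneg zero_le_one
      exact Real.log_natCast_nonneg _
    linarith
  have hab := abel_Ioc N (2 * N) (by omega) w z (B + P) hmono hw0 hz1
  have e2 : ∑ p ∈ PS N, E p = ((1 / Real.log N : ℝ) : ℂ) * ∑ l ∈ Ioc N (2 * N), z l -
      ∑ l ∈ Ioc N (2 * N), (w l : ℂ) * z l := by
    unfold PS
    rw [sum_filter, mul_sum, ← sum_sub_distrib]
    refine sum_congr rfl fun n hn => ?_
    rw [mem_Ioc] at hn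
    rw [← sub_mul, hz, hw]
    simp only
    split_ifs with h1
    · have hmax : max n N = n := max_eq_left hn.1.le
      rw [hmax]
      have hn1 : Real.log (n : ℝ) ≠ 0 := by
        apply ne_of_gt
        apply Real.log_pos
        exact_mod_cast (by omega : 1 < n)
      have hn3 : (1 / Real.log (N : ℝ) - (1 / Real.log (N : ℝ) - 1 / Real.log (n : ℝ))) * Real.log (n : ℝ) = 1 := by
        rw [sub_sub_cancel, one_div, inv_mul_cancel₀ hn1]
      rw [← mul_assoc, ← Complex.ofReal_sub, ← Complex.ofReal_mul, hn3, Complex.ofReal_one, one_mul]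
    · rw [mul_zero]
  rw [e2]
  refine (norm_sub_le _ _).trans ?_
  have h3 : ‖((1 / Real.log N : ℝ) : ℂ) * ∑ l ∈ Ioc N (2 * N), z l‖ ≤ 1 / Real.log N * (B + P) := by
    rw [norm_mul, Complex.norm_real, Real.norm_eq_abs, abs_of_pos (by positivity)]
    exact mul_le_mul_of_nonneg_left (hz1 _ le_rfl) (by positivity)
  have h4 : 2 * w (2 * N) * (B + P) ≤ 2 * (1 / Real.log N) * (B + P) := by
    apply mul_le_mul_of_nonneg_right _ (by positivity)
    linarith
  calc _ ≤ 1 / Real.log N * (B + P) + 2 * (1 / Real.log N) * (B + P) := by linarith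
    _ = _ := by ring

theorem PS_card : ∃ B₀ : ℕ, ∀ N : ℕ, B₀ ≤ N → (N : ℝ) / 2 ≤ (PS N).card * Real.log (2 * N) := by
  obtain ⟨B₀, hB0, hB⟩ := Pool.Agent.H295R3.D6.chebL
  refine ⟨B₀, fun N hN => ?_⟩
  have h1 := hB (2 * N) (by omega)
  have e : 2 * N / 2 = N := by omega
  rw [e] at h1
  have h2 : ∑ q ∈ (Ioc N (2 * N)).filter Nat.Prime, Real.log q ≤ (PS N).card * Real.log (2 * N) := by
    unfold PS
    rw [← nsmul_eq_mul]
    apply Finset.sum_le_card_nsmul
    intro q hq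
    rw [mem_filter, mem_Ioc] at hq
    apply Real.log_le_log
    · exact_mod_cast hq.2.pos
    · exact_mod_cast hq.1.2
  push_cast at h1
  have : (0 : ℝ) ≤ N := Nat.cast_nonneg _
  linarith

/-- **exponential sums over primes** -/
theorem prm {θ : ℝ} (hθ0 : 0 < θ) (hθ : ∀ m : ℕ, θ ≠ m) :
    ∀ᶠ y : ℝ in atTop, ∀ N : ℕ, (N : ℝ) = Real.exp (y ^ 70) → (PS N).Nonempty ∧ ∀ f : ℝ, 1 ≤ |f| →
      |f| ≤ Real.exp (y ^ 79 / 100) →
      ‖∑ p ∈ PS N, ee (f * (p : ℝ) ^ θ)‖ ≤ (PS N).card * Real.exp (-(y ^ 20 / 11)) := by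
  obtain ⟨B₀, hB₀⟩ := PS_card
  filter_upwards [lam hθ0 hθ, eventually_ge_atTop (2 : ℝ), eventually_ge_atTop (B₀ : ℝ),
    ev_exp_pow 24 (1 / 110) (by norm_num) 0 20 (by norm_num) (ε := 1) (by norm_num),
    ev_exp_pow 16 (1 / 4) (by norm_num) 70 70 (by norm_num) (ε := 1) (by norm_num)] with y h1 hy2 hyB hy3 hy4
  intro N hN
  have hy0 : (0 : ℝ) < y := by linarith
  have hy70 : (1000 : ℝ) ≤ y ^ 70 := by
    have h1 : (2 : ℝ) ^ 10 ≤ y ^ 10 := pow_le_pow_left₀ (by norm_num) hy2 10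
    have h2 : y ^ 10 ≤ y ^ 70 := pow_le_pow_right₀ (by linarith) (by norm_num)
    norm_num at h1
    linarith
  have hNy : y ≤ N := by
    rw [hN]
    have h1 := Real.add_one_le_exp (y ^ 70)
    have h2 : y ≤ y ^ 70 := le_self_pow₀ (by linarith) (by norm_num)
    linarith
  have hN0 : (0 : ℝ) < N := by linarith
  have hN2 : 2 ≤ N := by
    have : (2 : ℝ) ≤ N := by linarith
    exact_mod_cast this
  have hBN : B₀ ≤ N := by
    have : (B₀ : ℝ) ≤ N := by linarith
    exact_mod_cast this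
  have hcard := hB₀ N hBN
  have hlogN : Real.log N = y ^ 70 := by rw [hN, Real.log_exp]
  have hlog2 : Real.log (2 * N) ≤ 2 * y ^ 70 := by
    rw [Real.log_mul (by norm_num) hN0.ne', hlogN]
    have := Real.log_two_lt_d9
    linarith
  have hlog20 : 0 ≤ Real.log (2 * N) := by
    apply Real.log_nonneg
    have : (2 : ℝ) ≤ N := by exact_mod_cast hN2
    linarith
  have hcard2 : (N : ℝ) ≤ 4 * y ^ 70 * (PS N).card := by
    have h2 : ((PS N).card : ℝ) * Real.log (2 * N) ≤ (PS N).card * (2 * y ^ 70) :=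
      mul_le_mul_of_nonneg_left hlog2 (Nat.cast_nonneg _)
    linarith
  refine ⟨?_, ?_⟩
  · rw [nonempty_iff_ne_empty]
    intro he
    rw [he, card_empty, Nat.cast_zero, mul_zero] at hcard2
    linarith
  intro f hf1 hf2
  have h2 := prime_of_lam (fun n => ee (f * (n : ℝ) ^ θ)) (fun n => (norm_ee _).le) hN2
    (fun N' h3 h4 => h1 N hN f hf1 hf2 N' h3 h4)
  refine h2.trans ?_
  have hsq : √(2 * (N : ℝ)) ≤ 2 * Real.exp (y ^ 70 / 2) := by
    rw [Real.sqrt_le_left (by positivity), mul_pow, ← Real.exp_nat_mul, hN]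
    have e : ((2 : ℕ) : ℝ) * (y ^ 70 / 2) = y ^ 70 := by push_cast; ring
    rw [e]
    have := Real.exp_pos (y ^ 70)
    linarith
  have h5 : 2 * √(2 * (N : ℝ)) * Real.log (2 * N) ≤ N * Real.exp (-(y ^ 20 / 10)) := by
    have e1 : Real.exp (y ^ 70 / 2) = N * (Real.exp (-(1 / 4 * y ^ 70)) * Real.exp (-(y ^ 70 / 4))) := by
      rw [hN, ← Real.exp_add, ← Real.exp_add]
      have e0 : y ^ 70 / 2 = y ^ 70 + (-(1 / 4 * y ^ 70) + -(y ^ 70 / 4)) := by ring
      rw [← e0]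
    have h6 : Real.exp (-(y ^ 70 / 4)) ≤ Real.exp (-(y ^ 20 / 10)) := by
      apply Real.exp_le_exp.2
      have h7 : y ^ 20 ≤ y ^ 70 := pow_le_pow_right₀ (by linarith) (by norm_num)
      linarith
    calc 2 * √(2 * (N : ℝ)) * Real.log (2 * N) ≤ 2 * (2 * Real.exp (y ^ 70 / 2)) * (2 * y ^ 70) := by gcongr
      _ = N * ((8 * y ^ 70 * Real.exp (-(1 / 4 * y ^ 70))) * Real.exp (-(y ^ 70 / 4))) := by
          rw [e1]; ring
      _ ≤ N * (1 * Real.exp (-(y ^ 20 / 10))) := by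
          have h8 : 8 * y ^ 70 * Real.exp (-(1 / 4 * y ^ 70)) ≤ 1 := by
            have h9 : 0 ≤ y ^ 70 * Real.exp (-(1 / 4 * y ^ 70)) := by positivity
            linarith
          gcongr
      _ = _ := by ring
  rw [hlogN]
  have e2 : Real.exp (-(y ^ 20 / 10)) = Real.exp (-(1 / 110 * y ^ 20)) * Real.exp (-(y ^ 20 / 11)) := by
    rw [← Real.exp_add]
    congr 1
    ring
  have hy3' : 24 * Real.exp (-(1 / 110 * y ^ 20)) ≤ 1 := by
    rw [pow_zero, mul_one] at hy3
    exact hy3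
  have hy70' : 0 < y ^ 70 := by positivity
  calc 3 / y ^ 70 * (N * Real.exp (-(y ^ 20 / 10)) + 2 * √(2 * (N : ℝ)) * Real.log (2 * N)) ≤
      3 / y ^ 70 * (N * Real.exp (-(y ^ 20 / 10)) + N * Real.exp (-(y ^ 20 / 10))) := by gcongr
    _ = 6 / y ^ 70 * N * Real.exp (-(y ^ 20 / 10)) := by ring
    _ ≤ 6 / y ^ 70 * (4 * y ^ 70 * (PS N).card) * Real.exp (-(y ^ 20 / 10)) := by gcongr
    _ = (PS N).card * ((24 * Real.exp (-(1 / 110 * y ^ 20))) * Real.exp (-(y ^ 20 / 11))) := by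
        rw [e2]
        field_simp
        ring
    _ ≤ (PS N).card * (1 * Real.exp (-(y ^ 20 / 11))) := by gcongr
    _ = _ := by ring

end Pool.Agent.X121.PR
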