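import Pool.Agent.X121.PR.Vdc
import Pool.Agent.H373R2.T7.Vau

set_option autoImplicit false

/-! # Bilinear sums with powers -/

namespace Pool.Agent.X121.PR

open Finset Filter Pool.Agent.X121.ZS Pool.Agent.X121.AB
open Pool.Agent.Y93.VK (ee ee_add norm_ee ee_eq)
open Pool.Agent.H373R2.T3 (bilin)

theorem conj_ee (t : ℝ) : (starRingEnd ℂ) (ee t) = ee (-t) := by
  rw [ee_eq, ee_eq, ← Complex.exp_conj]
  congr 1
  simp only [map_mul, Complex.conj_ofReal, Complex.conj_I]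
  push_cast
  try simp
  try ring

theorem diff_low {θ : ℝ} (hθ : 0 < θ) {L x y : ℝ} (hL : 0 < L) (hx : L ≤ x) (hxy : x < y) (hy : y ≤ 2 * L) :
    θ / 2 * ((y - x) / L) * L ^ θ ≤ y ^ θ - x ^ θ := by
  have hx0 : 0 < x := lt_of_lt_of_le hL hx
  obtain ⟨c, hc, hcs⟩ := exists_hasDerivAt_eq_slope (fun t : ℝ => t ^ θ) (fun t => θ * t ^ (θ - 1)) hxy
    (by
      apply ContinuousOn.rpow_const continuousOn_id
      intro t ht
      left
      exact (lt_of_lt_of_le hx0 ht.1).ne')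
    (fun t ht => Real.hasDerivAt_rpow_const (Or.inl (lt_trans hx0 ht.1).ne'))
  have hc0 : 0 < c := hx0.trans hc.1
  have hcL : L ≤ c := hx.trans hc.1.le
  have hc2 : c ≤ 2 * L := hc.2.le.trans hy
  have h1 : L ^ (θ - 1) / 2 ≤ c ^ (θ - 1) := by
    have hLp : 0 < L ^ (θ - 1) := Real.rpow_pos_of_pos hL _
    rcases le_or_gt 1 θ with h | h
    · have := Real.rpow_le_rpow hL.le hcL (by linarith : 0 ≤ θ - 1)
      linarith
    · have h2 : (2 * L) ^ (θ - 1) ≤ c ^ (θ - 1) := Real.rpow_le_rpow_of_nonpos hc0 hc2 (by linarith)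
      have h3 : (1 / 2 : ℝ) ≤ (2 : ℝ) ^ (θ - 1) := by
        calc (1 / 2 : ℝ) = 2 ^ (-1 : ℝ) := by rw [Real.rpow_neg_one]; norm_num
          _ ≤ 2 ^ (θ - 1) := Real.rpow_le_rpow_of_exponent_le (by norm_num) (by linarith)
      rw [Real.mul_rpow (by norm_num) hL.le] at h2
      nlinarith
  have h4 : L ^ θ = L ^ (θ - 1) * L := by
    rw [← Real.rpow_add_one hL.ne']
    congr 1
    ring
  have h5 : y ^ θ - x ^ θ = θ * c ^ (θ - 1) * (y - x) := by
    have h6 : 0 < y - x := by linarith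
    have h7 : θ * c ^ (θ - 1) = (y ^ θ - x ^ θ) / (y - x) := hcs
    rw [h7]
    field_simp
  rw [h5, h4]
  have h6 : 0 < y - x := by linarith
  calc θ / 2 * ((y - x) / L) * (L ^ (θ - 1) * L) = θ * (L ^ (θ - 1) / 2) * (y - x) := by
        field_simp
    _ ≤ θ * c ^ (θ - 1) * (y - x) := by gcongr

/-- the size conditions -/
theorem sizes {θ : ℝ} (hθ0 : 0 < θ) : ∀ᶠ y : ℝ in atTop,
    2 / θ * 2 ^ (θ / 2) * 4 ^ θ * Real.exp (y ^ 20 / 4) ≤ Real.exp (θ * y ^ 70 / 2) ∧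
    4 ^ θ * Real.exp (θ * y ^ 70) ≤ Real.exp (y ^ 79 / 100) := by
  filter_upwards [eventually_ge_atTop (2 : ℝ), eventually_ge_atTop (2 / θ * 2 ^ (θ / 2) * 4 ^ θ),
    eventually_ge_atTop ((4 : ℝ) ^ θ), ev_pow_ge 4 θ hθ0 50 (by norm_num), eventually_ge_atTop (200 * (θ + 1))]
    with y h1 h2 h3 h4 h5
  have hy0 : 0 < y := by linarith
  have hy1 : 1 ≤ y := by linarith
  have hye : y ≤ Real.exp y := by
    have := Real.add_one_le_exp y
    linarith
  have hy20 : y ≤ y ^ 20 := le_self_pow₀ hy1 (by norm_num)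
  have hy70 : y ≤ y ^ 70 := le_self_pow₀ hy1 (by norm_num)
  have hp20 : 0 < y ^ 20 := by positivity
  have hp70 : 0 < y ^ 70 := by positivity
  constructor
  · calc 2 / θ * 2 ^ (θ / 2) * 4 ^ θ * Real.exp (y ^ 20 / 4) ≤ Real.exp y * Real.exp (y ^ 20 / 4) := by
          apply mul_le_mul_of_nonneg_right _ (Real.exp_nonneg _)
          linarith
      _ = Real.exp (y + y ^ 20 / 4) := by rw [Real.exp_add]
      _ ≤ Real.exp (θ * y ^ 70 / 2) := by
          apply Real.exp_le_exp.2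
          have h6 : θ * y ^ 70 = θ * y ^ 50 * y ^ 20 := by ring
          have h7 : 4 * y ^ 20 ≤ θ * y ^ 50 * y ^ 20 := mul_le_mul_of_nonneg_right h4 hp20.le
          linarith
  · calc 4 ^ θ * Real.exp (θ * y ^ 70) ≤ Real.exp y * Real.exp (θ * y ^ 70) := by
          apply mul_le_mul_of_nonneg_right _ (Real.exp_nonneg _)
          linarith
      _ = Real.exp (y + θ * y ^ 70) := by rw [Real.exp_add]
      _ ≤ Real.exp (y ^ 79 / 100) := by
          apply Real.exp_le_exp.2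
          have h6 : y ^ 79 = y ^ 9 * y ^ 70 := by ring
          have h7 : y ≤ y ^ 9 := le_self_pow₀ hy1 (by norm_num)
          have h8 : 200 * (θ + 1) * y ^ 70 ≤ y ^ 79 := by
            rw [h6]
            apply mul_le_mul_of_nonneg_right _ hp70.le
            linarith
          nlinarith

theorem YM_bounds {y : ℝ} (hy : 1 ≤ y) {M : ℕ} (hM : Real.exp (y ^ 70 / 17) ≤ M) :
    ∃ Y : ℝ, 20 / 21 * y ≤ Y ∧ (M : ℝ) = Real.exp (Y ^ 70) ∧ y ^ 20 / 4 ≤ Y ^ 20 ∧ y ^ 79 / 50 ≤ Y ^ 79 := by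
  have hM0 : (0 : ℝ) < M := lt_of_lt_of_le (Real.exp_pos _) hM
  have hM1 : 1 ≤ M := by
    have : 0 < M := by exact_mod_cast hM0
    omega
  obtain ⟨Y, hY⟩ : ∃ Y : ℝ, Y = Real.log M ^ (1 / 70 : ℝ) := ⟨_, rfl⟩
  have hMe : (M : ℝ) = Real.exp (Y ^ 70) := by rw [hY]; exact rootlog hM1
  have hY0 : 0 ≤ Y := by rw [hY]; exact Real.rpow_nonneg (Real.log_nonneg (by exact_mod_cast hM1)) _
  have hy0 : (0 : ℝ) ≤ 20 / 21 * y := by positivity
  have h1 : 20 / 21 * y ≤ Y := by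
    apply le_of_pow_le_pow_left₀ (n := 70) (by norm_num) hY0
    have h2 : y ^ 70 / 17 ≤ Y ^ 70 := by
      rw [← Real.exp_le_exp, ← hMe]
      exact hM
    refine le_trans ?_ h2
    rw [mul_pow]
    have h3 : ((20 : ℝ) / 21) ^ 70 ≤ 1 / 17 := by norm_num
    have h4 : 0 ≤ y ^ 70 := by positivity
    nlinarith
  refine ⟨Y, h1, hMe, ?_, ?_⟩
  · refine le_trans ?_ (pow_le_pow_left₀ hy0 h1 20)
    rw [mul_pow]
    have h3 : (1 : ℝ) / 4 ≤ ((20 : ℝ) / 21) ^ 20 := by norm_num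
    have h4 : 0 ≤ y ^ 20 := by positivity
    nlinarith
  · refine le_trans ?_ (pow_le_pow_left₀ hy0 h1 79)
    rw [mul_pow]
    have h3 : (1 : ℝ) / 50 ≤ ((20 : ℝ) / 21) ^ 79 := by norm_num
    have h4 : 0 ≤ y ^ 79 := by positivity
    nlinarith

/-- one pair -/
theorem col {θ : ℝ} (hθ0 : 0 < θ) (hθ : ∀ m : ℕ, θ ≠ m) :
    ∀ᶠ y : ℝ in atTop, ∀ N : ℕ, (N : ℝ) = Real.exp (y ^ 70) → ∀ f : ℝ, 1 ≤ |f| →
      |f| ≤ Real.exp (y ^ 79 / 100) → ∀ N' M L l l' : ℕ, N' ≤ 2 * N → Real.exp (y ^ 70 / 17) ≤ M →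
      1 ≤ L → M * L ≤ N' → N ≤ 4 * (M * L) → L ≤ l' → l' < l → l ≤ 2 * L →
      L * Real.exp (-(y ^ 20 / 4)) ≤ (l : ℝ) - l' →
      ‖∑ m ∈ (Ioc M (2 * M)).filter (fun m => (N < m * l ∧ m * l ≤ N') ∧ (N < m * l' ∧ m * l' ≤ N')),
        ee (f * ((l : ℝ) ^ θ - (l' : ℝ) ^ θ) * (m : ℝ) ^ θ)‖ ≤ 5 * M * Real.exp (-(y ^ 20 / 4)) := by
  obtain ⟨μ, hμd⟩ : ∃ μ : ℝ, μ = min (θ / 4) (1 / 4) := ⟨_, rfl⟩
  have hμ0 : 0 < μ := by rw [hμd]; exact lt_min (by positivity) (by norm_num)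
  have hμ1 : μ ≤ 1 / 4 := by rw [hμd]; exact min_le_right _ _
  have hμ2 : μ ≤ θ / 4 := by rw [hμd]; exact min_le_left _ _
  obtain ⟨Y₁, hY₁⟩ := eventually_atTop.1 (one hθ0 hθ hμ0 hμ1)
  filter_upwards [eventually_ge_atTop (max 1 (2 * Y₁)), sizes hθ0] with y hy hsz
  intro N hN f hf1 hf2 N' M L l l' hN' hM hL hML hNML hl' hll hl hsep
  have hy1 : 1 ≤ y := (le_max_left _ _).trans hy
  have hyY : 2 * Y₁ ≤ y := (le_max_right _ _).trans hy
  obtain ⟨Y, hYy, hMY, hY20, hY79⟩ := YM_bounds hy1 hM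
  have hM0 : (0 : ℝ) < M := lt_of_lt_of_le (Real.exp_pos _) hM
  have hM1 : 1 ≤ M := by
    have : 0 < M := by exact_mod_cast hM0
    omega
  have hL0 : (0 : ℝ) < L := by exact_mod_cast hL
  have hset : (Ioc M (2 * M)).filter (fun m => (N < m * l ∧ m * l ≤ N') ∧ (N < m * l' ∧ m * l' ≤ N')) =
      Ioc (max M (max (N / l) (N / l'))) (min (2 * M) (min (N' / l) (N' / l'))) := by
    ext m
    have hl0 : 0 < l := by omega
    have hl'0 : 0 < l' := by omega
    simp only [mem_filter, mem_Ioc, max_lt_iff, le_min_iff, Nat.div_lt_iff_lt_mul hl0,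
      Nat.div_lt_iff_lt_mul hl'0, Nat.le_div_iff_mul_le hl0, Nat.le_div_iff_mul_le hl'0]
    tauto
  rw [hset]
  obtain ⟨A, hA⟩ : ∃ A, A = max M (max (N / l) (N / l')) := ⟨_, rfl⟩
  obtain ⟨B, hB⟩ : ∃ B, B = min (2 * M) (min (N' / l) (N' / l')) := ⟨_, rfl⟩
  rw [← hA, ← hB]
  rcases Nat.lt_or_ge B A with hBA | hAB
  · rw [Ioc_eq_empty (by omega), sum_empty, norm_zero]
    positivity
  have hMA : M ≤ A := by rw [hA]; exact le_max_left _ _
  have hB2 : B ≤ 2 * M + 1 := by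
    have : B ≤ 2 * M := by rw [hB]; exact min_le_left _ _
    omega
  have hN0 : (0 : ℝ) < N := by rw [hN]; exact Real.exp_pos _
  have hl'R : (L : ℝ) ≤ l' := by exact_mod_cast hl'
  have hlR : (l : ℝ) ≤ 2 * L := by exact_mod_cast hl
  have hllR : (l' : ℝ) < l := by exact_mod_cast hll
  have hdl := diff_low hθ0 hL0 hl'R hllR hlR
  have hexp0 : 0 < Real.exp (-(y ^ 20 / 4)) := Real.exp_pos _
  have hrat : Real.exp (-(y ^ 20 / 4)) ≤ ((l : ℝ) - l') / L := by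
    rw [le_div_iff₀ hL0, mul_comm]
    exact hsep
  have hLθ : (0 : ℝ) < (L : ℝ) ^ θ := Real.rpow_pos_of_pos hL0 _
  have hMθ : (0 : ℝ) < (M : ℝ) ^ θ := Real.rpow_pos_of_pos hM0 _
  have hd0 : 0 < (l : ℝ) ^ θ - (l' : ℝ) ^ θ := by
    refine lt_of_lt_of_le ?_ hdl
    have : 0 < ((l : ℝ) - l') / L := lt_of_lt_of_le hexp0 hrat
    positivity
  have hYM := hY₁ Y (by linarith) M hMY A B hMA hAB hB2 (f * ((l : ℝ) ^ θ - (l' : ℝ) ^ θ)) ?_ ?_
  · refine hYM.trans ?_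
    apply mul_le_mul_of_nonneg_left _ (by positivity)
    apply Real.exp_le_exp.2
    linarith
  · -- lower bound
    rw [abs_mul, abs_of_pos hd0]
    have hML4 : (N : ℝ) / 4 ≤ (L : ℝ) * M := by
      have : (N : ℝ) ≤ 4 * (M * L) := by exact_mod_cast hNML
      linarith
    have h1 : θ / 2 * Real.exp (-(y ^ 20 / 4)) * ((N : ℝ) / 4) ^ θ ≤
        |f| * ((l : ℝ) ^ θ - (l' : ℝ) ^ θ) * (M : ℝ) ^ θ := by
      calc θ / 2 * Real.exp (-(y ^ 20 / 4)) * ((N : ℝ) / 4) ^ θ ≤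
          θ / 2 * Real.exp (-(y ^ 20 / 4)) * ((L : ℝ) * M) ^ θ := by
            gcongr
        _ = 1 * (θ / 2 * Real.exp (-(y ^ 20 / 4)) * (L : ℝ) ^ θ) * (M : ℝ) ^ θ := by
            rw [Real.mul_rpow hL0.le hM0.le]
            ring
        _ ≤ |f| * (θ / 2 * (((l : ℝ) - l') / L) * (L : ℝ) ^ θ) * (M : ℝ) ^ θ := by
            gcongr
        _ ≤ |f| * ((l : ℝ) ^ θ - (l' : ℝ) ^ θ) * (M : ℝ) ^ θ := by
            gcongr
    refine le_trans ?_ h1
    have hM2N : (M : ℝ) ≤ 2 * N := by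
      have h2 : M ≤ M * L := Nat.le_mul_of_pos_right _ (by omega)
      have h3 : M ≤ 2 * N := by omega
      exact_mod_cast h3
    have h4 : Real.exp (2 * μ * Y ^ 70) ≤ (2 * (N : ℝ)) ^ (θ / 2) := by
      have h5 : Real.exp (2 * μ * Y ^ 70) = (M : ℝ) ^ (2 * μ) := by
        rw [hMY, ← Real.exp_mul, mul_comm]
      rw [h5]
      have hM1R : (1 : ℝ) ≤ M := by exact_mod_cast hM1
      calc (M : ℝ) ^ (2 * μ) ≤ (M : ℝ) ^ (θ / 2) := Real.rpow_le_rpow_of_exponent_le hM1R (by linarith)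
        _ ≤ (2 * (N : ℝ)) ^ (θ / 2) := Real.rpow_le_rpow hM0.le hM2N (by positivity)
    refine h4.trans ?_
    have e1 : (2 * (N : ℝ)) ^ (θ / 2) = 2 ^ (θ / 2) * Real.exp (θ * y ^ 70 / 2) := by
      rw [Real.mul_rpow (by norm_num) hN0.le, hN, ← Real.exp_mul]
      congr 2
      ring
    have e2 : ((N : ℝ) / 4) ^ θ = Real.exp (θ * y ^ 70) / 4 ^ θ := by
      rw [Real.div_rpow hN0.le (by norm_num), hN, ← Real.exp_mul]
      congr 2
      ring
    have e3 : Real.exp (θ * y ^ 70) = Real.exp (θ * y ^ 70 / 2) * Real.exp (θ * y ^ 70 / 2) := by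
      rw [← Real.exp_add]
      congr 1
      ring
    rw [e1, e2, e3]
    have h6 := hsz.1
    have h4θ : (0 : ℝ) < 4 ^ θ := by positivity
    have h7 : 2 ^ (θ / 2) ≤ θ / 2 * Real.exp (-(y ^ 20 / 4)) * (Real.exp (θ * y ^ 70 / 2) / 4 ^ θ) := by
      have h8 : Real.exp (y ^ 20 / 4) * Real.exp (-(y ^ 20 / 4)) = 1 := by
        rw [← Real.exp_add, add_neg_cancel, Real.exp_zero]
      have h9 : 2 ^ (θ / 2) = θ / 2 * Real.exp (-(y ^ 20 / 4)) *
          ((2 / θ * 2 ^ (θ / 2) * 4 ^ θ * Real.exp (y ^ 20 / 4)) / 4 ^ θ) := by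
        calc (2 : ℝ) ^ (θ / 2) = 2 ^ (θ / 2) * (Real.exp (y ^ 20 / 4) * Real.exp (-(y ^ 20 / 4))) := by
              rw [h8, mul_one]
          _ = _ := by field_simp
      rw [h9]
      gcongr
    calc 2 ^ (θ / 2) * Real.exp (θ * y ^ 70 / 2) ≤
        θ / 2 * Real.exp (-(y ^ 20 / 4)) * (Real.exp (θ * y ^ 70 / 2) / 4 ^ θ) * Real.exp (θ * y ^ 70 / 2) := by
          gcongr
      _ = _ := by ring
  · -- upper bound
    rw [abs_mul, abs_of_pos hd0]
    have hL2N : (l : ℝ) ≤ 4 * N := by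
      have h2 : L ≤ M * L := Nat.le_mul_of_pos_left _ (by omega)
      have h3 : L ≤ 2 * N := by omega
      have h4 : (L : ℝ) ≤ 2 * N := by exact_mod_cast h3
      linarith
    have hl0 : (0 : ℝ) ≤ l := Nat.cast_nonneg _
    have hl'0 : (0 : ℝ) ≤ (l' : ℝ) ^ θ := by positivity
    calc |f| * ((l : ℝ) ^ θ - (l' : ℝ) ^ θ) ≤ Real.exp (y ^ 79 / 100) * (4 * (N : ℝ)) ^ θ := by
          apply mul_le_mul hf2 _ hd0.le (Real.exp_nonneg _)
          have := Real.rpow_le_rpow hl0 hL2N hθ0.le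
          linarith
      _ = Real.exp (y ^ 79 / 100) * (4 ^ θ * Real.exp (θ * y ^ 70)) := by
          rw [Real.mul_rpow (by norm_num) hN0.le, hN, ← Real.exp_mul]
          congr 3
          ring
      _ ≤ Real.exp (y ^ 79 / 100) * Real.exp (y ^ 79 / 100) := by
          gcongr
          exact hsz.2
      _ = Real.exp (y ^ 79 / 50) := by
          rw [← Real.exp_add]
          congr 1
          ring
      _ ≤ Real.exp (Y ^ 79) := Real.exp_le_exp.2 hY79

/-- bilinear sums -/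
theorem typeII {θ : ℝ} (hθ0 : 0 < θ) (hθ : ∀ m : ℕ, θ ≠ m) :
    ∀ᶠ y : ℝ in atTop, ∀ N : ℕ, (N : ℝ) = Real.exp (y ^ 70) → ∀ f : ℝ, 1 ≤ |f| →
      |f| ≤ Real.exp (y ^ 79 / 100) → ∀ N' M L : ℕ, N' ≤ 2 * N → Real.exp (y ^ 70 / 17) ≤ M →
      Real.exp (y ^ 70 / 17) ≤ L → M * L ≤ N' → ∀ a b : ℕ → ℂ,
      ‖∑ m ∈ Ioc M (2 * M), ∑ l ∈ Ioc L (2 * L), a m * b l * (if N < m * l ∧ m * l ≤ N' then
        ee (f * ((m * l : ℕ) : ℝ) ^ θ) else 0)‖ ^ 2 ≤
        (∑ m ∈ Ioc M (2 * M), ‖a m‖ ^ 2) * ((∑ l ∈ Ioc L (2 * L), ‖b l‖ ^ 2) *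
          (8 * M * L * Real.exp (-(y ^ 20 / 4)))) := by
  classical
  filter_upwards [col hθ0 hθ, eventually_ge_atTop (2 : ℝ)] with y hcol hy2
  intro N hN f hf1 hf2 N' M L hN' hM hLe hML2 a b
  obtain ⟨T, hT⟩ : ∃ T : ℝ, T = 8 * M * L * Real.exp (-(y ^ 20 / 4)) := ⟨_, rfl⟩
  rw [← hT]
  have hM0 : (0 : ℝ) < M := lt_of_lt_of_le (Real.exp_pos _) hM
  have hL0 : (0 : ℝ) < L := lt_of_lt_of_le (Real.exp_pos _) hLe
  have hL : 1 ≤ L := by
    have : 0 < L := by exact_mod_cast hL0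
    omega
  have hM1 : 1 ≤ M := by
    have : 0 < M := by exact_mod_cast hM0
    omega
  have hT0 : 0 ≤ T := by rw [hT]; positivity
  obtain ⟨g, hg⟩ : ∃ g : ℕ → ℕ → ℂ, g = fun m l => if N < m * l ∧ m * l ≤ N' then
    ee (f * ((m * l : ℕ) : ℝ) ^ θ) else 0 := ⟨_, rfl⟩
  have hg' : ∀ m l, (if N < m * l ∧ m * l ≤ N' then ee (f * ((m * l : ℕ) : ℝ) ^ θ) else 0) = g m l := by
    intro m l; rw [hg]
  simp only [hg']
  rcases Nat.lt_or_ge (4 * (M * L)) N with hsmall | hbig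
  · have hz : ∑ m ∈ Ioc M (2 * M), ∑ l ∈ Ioc L (2 * L), a m * b l * g m l = 0 := by
      apply sum_eq_zero; intro m hm
      apply sum_eq_zero; intro l hl
      rw [mem_Ioc] at hm hl
      have h1 : m * l ≤ 2 * M * (2 * L) := Nat.mul_le_mul hm.2 hl.2
      have h2 : ¬ (N < m * l ∧ m * l ≤ N') := by
        rintro ⟨h3, -⟩
        have : 2 * M * (2 * L) = 4 * (M * L) := by ring
        omega
      simp only [hg]
      rw [if_neg h2, mul_zero]
    rw [hz, norm_zero, zero_pow (by norm_num : (2 : ℕ) ≠ 0)]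
    exact mul_nonneg (sum_nonneg fun _ _ => by positivity)
      (mul_nonneg (sum_nonneg fun _ _ => by positivity) hT0)
  have hgg : ∀ m l l', g m l * (starRingEnd ℂ) (g m l') = if (N < m * l ∧ m * l ≤ N') ∧ (N < m * l' ∧ m * l' ≤ N') then
      ee (f * ((l : ℝ) ^ θ - (l' : ℝ) ^ θ) * (m : ℝ) ^ θ) else 0 := by
    intro m l l'
    simp only [hg]
    by_cases h2 : N < m * l ∧ m * l ≤ N'
    · by_cases h3 : N < m * l' ∧ m * l' ≤ N'
      · rw [if_pos h2, if_pos h3, if_pos ⟨h2, h3⟩, conj_ee, ← ee_add]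
        congr 1
        push_cast
        rw [Real.mul_rpow (Nat.cast_nonneg _) (Nat.cast_nonneg _),
          Real.mul_rpow (Nat.cast_nonneg _) (Nat.cast_nonneg _)]
        ring
      · rw [if_neg h3, map_zero, mul_zero, if_neg (fun h => h3 h.2)]
    · rw [if_neg h2, zero_mul, if_neg (fun h => h2 h.1)]
  have hcardM : ((Ioc M (2 * M)).card : ℝ) = M := by
    rw [Nat.card_Ioc]
    congr 1
    omega
  have htriv : ∀ l l', ‖∑ m ∈ Ioc M (2 * M), g m l * (starRingEnd ℂ) (g m l')‖ ≤ M := by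
    intro l l'
    refine (norm_sum_le _ _).trans ?_
    calc ∑ m ∈ Ioc M (2 * M), ‖g m l * (starRingEnd ℂ) (g m l')‖ ≤ ∑ _m ∈ Ioc M (2 * M), (1 : ℝ) := by
          apply sum_le_sum; intro m _
          rw [hgg]
          split_ifs
          · rw [norm_ee]
          · rw [norm_zero]; norm_num
      _ = M := by
          rw [sum_const, nsmul_eq_mul, mul_one, hcardM]
  have hfar : ∀ l ∈ Ioc L (2 * L), ∀ l' ∈ Ioc L (2 * L), L * Real.exp (-(y ^ 20 / 4)) ≤ |(l : ℝ) - l'| →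
      ‖∑ m ∈ Ioc M (2 * M), g m l * (starRingEnd ℂ) (g m l')‖ ≤ 5 * M * Real.exp (-(y ^ 20 / 4)) := by
    intro l hl l' hl' hsep
    rw [mem_Ioc] at hl hl'
    have hpos : 0 < L * Real.exp (-(y ^ 20 / 4)) := by positivity
    have hne : l ≠ l' := by
      intro h
      rw [h, sub_self, abs_zero] at hsep
      linarith
    simp_rw [hgg]
    rw [← sum_filter]
    rcases Nat.lt_or_gt_of_ne hne with h | h
    · have hlt : (l : ℝ) < l' := by exact_mod_cast h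
      have h2 := hcol N hN f hf1 hf2 N' M L l' l hN' hM hL hML2 hbig (by omega) h (by omega) (by
        rw [abs_of_neg (by linarith)] at hsep
        linarith)
      refine le_trans (le_of_eq ?_) h2
      have h3 : ∑ m ∈ (Ioc M (2 * M)).filter (fun m => (N < m * l ∧ m * l ≤ N') ∧ (N < m * l' ∧ m * l' ≤ N')),
          ee (f * ((l : ℝ) ^ θ - (l' : ℝ) ^ θ) * (m : ℝ) ^ θ) =
          (starRingEnd ℂ) (∑ m ∈ (Ioc M (2 * M)).filter
          (fun m => (N < m * l' ∧ m * l' ≤ N') ∧ (N < m * l ∧ m * l ≤ N')),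
            ee (f * ((l' : ℝ) ^ θ - (l : ℝ) ^ θ) * (m : ℝ) ^ θ)) := by
        rw [map_sum]
        apply sum_congr
        · ext m; simp only [mem_filter]; tauto
        · intro m _
          rw [conj_ee]; congr 1; ring
      rw [h3, Complex.norm_conj]
    · have hlt : (l' : ℝ) < l := by exact_mod_cast h
      exact hcol N hN f hf1 hf2 N' M L l l' hN' hM hL hML2 hbig (by omega) h (by omega) (by
        rw [abs_of_pos (by linarith)] at hsep
        linarith)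
  have hLexp : 1 ≤ L * Real.exp (-(y ^ 20 / 4)) := by
    have hy0 : (0 : ℝ) < y := by linarith
    have h1 : Real.exp (y ^ 20 / 4) ≤ L := by
      refine le_trans ?_ hLe
      apply Real.exp_le_exp.2
      have h2 : (2 : ℝ) ^ 3 ≤ y ^ 3 := pow_le_pow_left₀ (by norm_num) hy2 3
      have h3 : y ^ 3 ≤ y ^ 50 := pow_le_pow_right₀ (by linarith) (by norm_num)
      have h4 : y ^ 70 = y ^ 50 * y ^ 20 := by ring
      have h5 : 0 < y ^ 20 := by positivity
      rw [h4]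
      nlinarith
    rw [Real.exp_neg, ← div_eq_mul_inv, le_div_iff₀ (Real.exp_pos _), one_mul]
    exact h1
  have hTl : ∀ l ∈ Ioc L (2 * L), ∑ l' ∈ Ioc L (2 * L), ‖∑ m ∈ Ioc M (2 * M), g m l * (starRingEnd ℂ) (g m l')‖ ≤ T := by
    intro l hl
    obtain ⟨w, hw⟩ : ∃ w : ℕ, w = ⌊L * Real.exp (-(y ^ 20 / 4))⌋₊ := ⟨_, rfl⟩
    have hw1 : (w : ℝ) ≤ L * Real.exp (-(y ^ 20 / 4)) := by rw [hw]; exact Nat.floor_le (by positivity)
    have hw2 : L * Real.exp (-(y ^ 20 / 4)) < w + 1 := by rw [hw]; exact Nat.lt_floor_add_one _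
    rw [← sum_filter_add_sum_filter_not (Ioc L (2 * L)) (fun l' => l ≤ l' + w ∧ l' ≤ l + w)]
    have c1 : ∑ l' ∈ (Ioc L (2 * L)).filter (fun l' => l ≤ l' + w ∧ l' ≤ l + w),
        ‖∑ m ∈ Ioc M (2 * M), g m l * (starRingEnd ℂ) (g m l')‖ ≤ 3 * (L * Real.exp (-(y ^ 20 / 4))) * M := by
      have h1 : (((Ioc L (2 * L)).filter (fun l' => l ≤ l' + w ∧ l' ≤ l + w)).card : ℝ) ≤ 2 * w + 1 := by
        have h2 : ((Ioc L (2 * L)).filter (fun l' => l ≤ l' + w ∧ l' ≤ l + w)).card ≤ 2 * w + 1 := by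
          calc _ ≤ (Icc (l - w) (l + w)).card := by
                apply card_le_card
                intro t ht
                rw [mem_filter] at ht
                rw [mem_Icc]
                omega
            _ ≤ 2 * w + 1 := by
                rw [Nat.card_Icc]
                omega
        exact_mod_cast h2
      calc _ ≤ ∑ _l' ∈ (Ioc L (2 * L)).filter (fun l' => l ≤ l' + w ∧ l' ≤ l + w), (M : ℝ) :=
            sum_le_sum fun l' _ => htriv l l'
        _ = (((Ioc L (2 * L)).filter (fun l' => l ≤ l' + w ∧ l' ≤ l + w)).card : ℝ) * M := by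
            rw [sum_const, nsmul_eq_mul]
        _ ≤ 3 * (L * Real.exp (-(y ^ 20 / 4))) * M := by
            apply mul_le_mul_of_nonneg_right _ hM0.le
            linarith
    have c2 : ∑ l' ∈ (Ioc L (2 * L)).filter (fun l' => ¬ (l ≤ l' + w ∧ l' ≤ l + w)),
        ‖∑ m ∈ Ioc M (2 * M), g m l * (starRingEnd ℂ) (g m l')‖ ≤ L * (5 * M * Real.exp (-(y ^ 20 / 4))) := by
      calc _ ≤ ∑ _l' ∈ (Ioc L (2 * L)).filter (fun l' => ¬ (l ≤ l' + w ∧ l' ≤ l + w)),
            (5 * M * Real.exp (-(y ^ 20 / 4))) := by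
            apply sum_le_sum
            intro l' hl'
            rw [mem_filter] at hl'
            apply hfar l hl l' hl'.1
            have h3 := hl'.2
            have h4 : l' + w + 1 ≤ l ∨ l + w + 1 ≤ l' := by omega
            rcases h4 with h4 | h4
            · have h5 : (l' : ℝ) + w + 1 ≤ l := by exact_mod_cast h4
              rw [abs_of_nonneg (by linarith)]
              linarith
            · have h5 : (l : ℝ) + w + 1 ≤ l' := by exact_mod_cast h4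
              rw [abs_of_nonpos (by linarith)]
              linarith
        _ = (((Ioc L (2 * L)).filter (fun l' => ¬ (l ≤ l' + w ∧ l' ≤ l + w))).card : ℝ) *
            (5 * M * Real.exp (-(y ^ 20 / 4))) := by rw [sum_const, nsmul_eq_mul]
        _ ≤ _ := by
            apply mul_le_mul_of_nonneg_right _ (by positivity)
            have h6 : ((Ioc L (2 * L)).filter (fun l' => ¬ (l ≤ l' + w ∧ l' ≤ l + w))).card ≤ L := by
              refine (card_filter_le _ _).trans ?_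
              rw [Nat.card_Ioc]
              omega
            exact_mod_cast h6
    calc _ ≤ 3 * (L * Real.exp (-(y ^ 20 / 4))) * M + L * (5 * M * Real.exp (-(y ^ 20 / 4))) := add_le_add c1 c2
      _ = T := by rw [hT]; ring
  exact bilin _ _ a b g T hTl

end Pool.Agent.X121.PR
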