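import Pool.Agent.X121.PR.Bil

set_option autoImplicit false

/-! # Sums over the von Mangoldt function -/

namespace Pool.Agent.X121.PR

open Finset Filter Pool.Agent.X121.ZS Pool.Agent.X121.AB
open Pool.Agent.Y93.VK (ee ee_add norm_ee ee_eq)

/-- linear sums -/
theorem typeI {θ : ℝ} (hθ0 : 0 < θ) (hθ : ∀ m : ℕ, θ ≠ m) :
    ∀ᶠ y : ℝ in atTop, ∀ N : ℕ, (N : ℝ) = Real.exp (y ^ 70) → ∀ f : ℝ, 1 ≤ |f| →
      |f| ≤ Real.exp (y ^ 79 / 100) → ∀ N' m b : ℕ, N' ≤ 2 * N → 1 ≤ m → (m : ℝ) ≤ Real.exp (y ^ 70 / 8) →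
      b ≤ N' / m →
      ‖∑ l ∈ Ioc (N / m) b, ee (f * ((m * l : ℕ) : ℝ) ^ θ)‖ ≤ 5 * (N / m) * Real.exp (-(y ^ 20 / 4)) := by
  obtain ⟨μ, hμd⟩ : ∃ μ : ℝ, μ = min (θ / 4) (1 / 4) := ⟨_, rfl⟩
  have hμ0 : 0 < μ := by rw [hμd]; exact lt_min (by positivity) (by norm_num)
  have hμ1 : μ ≤ 1 / 4 := by rw [hμd]; exact min_le_right _ _
  have hμ2 : μ ≤ θ / 4 := by rw [hμd]; exact min_le_left _ _
  obtain ⟨Y₁, hY₁⟩ := eventually_atTop.1 (one hθ0 hθ hμ0 hμ1)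
  filter_upwards [eventually_ge_atTop (max 2 (2 * Y₁)), sizes hθ0] with y hy hsz
  intro N hN f hf1 hf2 N' m b hN' hm1 hm hb
  have hy2 : 2 ≤ y := (le_max_left _ _).trans hy
  have hy1 : 1 ≤ y := by linarith
  have hyY : 2 * Y₁ ≤ y := (le_max_right _ _).trans hy
  have hy70 : (1000 : ℝ) ≤ y ^ 70 := by
    have h1 : (2 : ℝ) ^ 10 ≤ y ^ 10 := pow_le_pow_left₀ (by norm_num) hy2 10
    have h2 : y ^ 10 ≤ y ^ 70 := pow_le_pow_right₀ (by linarith) (by norm_num)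
    norm_num at h1
    linarith
  have hN0 : (0 : ℝ) < N := by rw [hN]; exact Real.exp_pos _
  have hm0 : (0 : ℝ) < m := by exact_mod_cast hm1
  obtain ⟨a, ha⟩ : ∃ a : ℕ, a = N / m := ⟨_, rfl⟩
  have hNm : 4 * (m : ℝ) ≤ N := by
    have h1 : (4 : ℝ) ≤ Real.exp (y ^ 70 * (7 / 8)) := by
      have := Real.add_one_le_exp (y ^ 70 * (7 / 8))
      linarith
    calc 4 * (m : ℝ) ≤ Real.exp (y ^ 70 * (7 / 8)) * Real.exp (y ^ 70 / 8) := by gcongr
      _ = N := by rw [hN, ← Real.exp_add]; ring_nf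
  have hma1 : (m : ℝ) * a ≤ N := by
    rw [ha]
    exact_mod_cast Nat.mul_div_le N m
  have hma2 : (N : ℝ) ≤ m * a + m := by
    rw [ha]
    have := Nat.lt_mul_div_succ N (by omega : 0 < m)
    have h2 : N ≤ m * (N / m) + m := by
      rw [Nat.mul_succ] at this
      omega
    exact_mod_cast h2
  have hma3 : (N : ℝ) / 2 ≤ m * a := by linarith
  have haN : (a : ℝ) ≤ N / m := by
    rw [le_div_iff₀ hm0]
    linarith
  have ha17 : Real.exp (y ^ 70 / 17) ≤ a := by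
    have h1 : (2 : ℝ) * Real.exp (y ^ 70 / 17) ≤ Real.exp (y ^ 70 * (7 / 8)) := by
      have h2 : (2 : ℝ) ≤ Real.exp (y ^ 70 * (7 / 8) - y ^ 70 / 17) := by
        have := Real.add_one_le_exp (y ^ 70 * (7 / 8) - y ^ 70 / 17)
        linarith
      calc (2 : ℝ) * Real.exp (y ^ 70 / 17) ≤
          Real.exp (y ^ 70 * (7 / 8) - y ^ 70 / 17) * Real.exp (y ^ 70 / 17) := by gcongr
        _ = _ := by rw [← Real.exp_add]; ring_nf
    have h3 : Real.exp (y ^ 70 * (7 / 8)) * m ≤ N := by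
      calc Real.exp (y ^ 70 * (7 / 8)) * m ≤ Real.exp (y ^ 70 * (7 / 8)) * Real.exp (y ^ 70 / 8) := by gcongr
        _ = N := by rw [hN, ← Real.exp_add]; ring_nf
    have h4 : Real.exp (y ^ 70 / 17) * m ≤ a * m := by nlinarith
    exact le_of_mul_le_mul_right h4 hm0
  have ha0 : (0 : ℝ) < a := lt_of_lt_of_le (Real.exp_pos _) ha17
  have ha1 : 1 ≤ a := by
    have : 0 < a := by exact_mod_cast ha0
    omega
  obtain ⟨Y, hYy, hMY, hY20, hY79⟩ := YM_bounds hy1 ha17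
  rw [← ha]
  rcases Nat.lt_or_ge b a with hba | hab
  · rw [Ioc_eq_empty (by omega), sum_empty, norm_zero]
    positivity
  have hb2 : b ≤ 2 * a + 1 := by
    have h1 : N' / m ≤ (2 * N) / m := Nat.div_le_div_right hN'
    have h2 : (2 * N) / m < 2 * a + 2 := by
      rw [Nat.div_lt_iff_lt_mul (by omega), ha]
      have := Nat.lt_mul_div_succ N (by omega : 0 < m)
      have e : (2 * (N / m) + 2) * m = 2 * (m * (N / m + 1)) := by ring
      rw [e]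
      omega
    omega
  have e1 : ∑ l ∈ Ioc a b, ee (f * ((m * l : ℕ) : ℝ) ^ θ) = ∑ l ∈ Ioc a b, ee (f * (m : ℝ) ^ θ * (l : ℝ) ^ θ) := by
    refine sum_congr rfl fun l _ => ?_
    push_cast
    rw [Real.mul_rpow (Nat.cast_nonneg _) (Nat.cast_nonneg _), ← mul_assoc]
  rw [e1]
  have hmθ : (0 : ℝ) < (m : ℝ) ^ θ := Real.rpow_pos_of_pos hm0 _
  have hYM := hY₁ Y (by linarith) a hMY a b le_rfl hab hb2 (f * (m : ℝ) ^ θ) ?_ ?_
  · refine hYM.trans ?_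
    have h1 : Real.exp (-(Y ^ 20)) ≤ Real.exp (-(y ^ 20 / 4)) := Real.exp_le_exp.2 (by linarith)
    have h2 : 5 * (a : ℝ) ≤ 5 * (N / m) := by linarith
    exact mul_le_mul h2 h1 (Real.exp_nonneg _) (by positivity)
  · rw [abs_mul, abs_of_pos hmθ]
    have h5 : Real.exp (2 * μ * Y ^ 70) = (a : ℝ) ^ (2 * μ) := by
      rw [hMY, ← Real.exp_mul, mul_comm]
    rw [h5]
    have ha1R : (1 : ℝ) ≤ a := by exact_mod_cast ha1
    have haN' : (a : ℝ) ≤ N := by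
      refine haN.trans ?_
      rw [div_le_iff₀ hm0]
      have : (1 : ℝ) ≤ m := by exact_mod_cast hm1
      nlinarith
    have hsqrt : (N : ℝ) ^ (1 / 2 : ℝ) ≤ N / 2 := by
      have h6 : (N : ℝ) = (N : ℝ) ^ (1 / 2 : ℝ) * (N : ℝ) ^ (1 / 2 : ℝ) := by
        rw [← Real.rpow_add hN0]
        norm_num
      have h7 : (2 : ℝ) ≤ (N : ℝ) ^ (1 / 2 : ℝ) := by
        rw [hN, ← Real.exp_mul]
        have := Real.add_one_le_exp (y ^ 70 * (1 / 2))
        linarith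
      nlinarith
    calc (a : ℝ) ^ (2 * μ) ≤ (a : ℝ) ^ (θ / 2) := Real.rpow_le_rpow_of_exponent_le ha1R (by linarith)
      _ ≤ (N : ℝ) ^ (θ / 2) := Real.rpow_le_rpow ha0.le haN' (by positivity)
      _ = ((N : ℝ) ^ (1 / 2 : ℝ)) ^ θ := by
          rw [← Real.rpow_mul hN0.le]
          congr 1
          ring
      _ ≤ ((m : ℝ) * a) ^ θ := Real.rpow_le_rpow (by positivity) (hsqrt.trans hma3) hθ0.le
      _ = 1 * (m : ℝ) ^ θ * (a : ℝ) ^ θ := by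
          rw [Real.mul_rpow hm0.le ha0.le]
          ring
      _ ≤ |f| * (m : ℝ) ^ θ * (a : ℝ) ^ θ := by gcongr
  · rw [abs_mul, abs_of_pos hmθ]
    have hmN : (m : ℝ) ≤ N := by linarith
    calc |f| * (m : ℝ) ^ θ ≤ Real.exp (y ^ 79 / 100) * (N : ℝ) ^ θ := by
          gcongr
      _ = Real.exp (y ^ 79 / 100) * (1 * Real.exp (θ * y ^ 70)) := by
          rw [hN, ← Real.exp_mul, one_mul, mul_comm (y ^ 70) θ]
      _ ≤ Real.exp (y ^ 79 / 100) * (4 ^ θ * Real.exp (θ * y ^ 70)) := by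
          have : (1 : ℝ) ≤ 4 ^ θ := Real.one_le_rpow (by norm_num) hθ0.le
          gcongr
      _ ≤ Real.exp (y ^ 79 / 100) * Real.exp (y ^ 79 / 100) := by
          gcongr
          exact hsz.2
      _ = Real.exp (y ^ 79 / 50) := by
          rw [← Real.exp_add]
          congr 1
          ring
      _ ≤ Real.exp (Y ^ 79) := Real.exp_le_exp.2 hY79

theorem harm (n : ℕ) : ∑ m ∈ Icc 1 n, (1 : ℝ) / m ≤ 1 + Real.log n := by
  have h := harmonic_le_one_add_log n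
  rw [harmonic_eq_sum_Icc] at h
  push_cast at h
  simpa [one_div] using h

/-- **exponential sums over the von Mangoldt function** -/
theorem lam {θ : ℝ} (hθ0 : 0 < θ) (hθ : ∀ m : ℕ, θ ≠ m) :
    ∀ᶠ y : ℝ in atTop, ∀ N : ℕ, (N : ℝ) = Real.exp (y ^ 70) → ∀ f : ℝ, 1 ≤ |f| →
      |f| ≤ Real.exp (y ^ 79 / 100) → ∀ N' : ℕ, N ≤ N' → N' ≤ 2 * N →
      ‖∑ n ∈ Ioc N N', ((ArithmeticFunction.vonMangoldt n : ℝ) : ℂ) * ee (f * (n : ℝ) ^ θ)‖ ≤
        N * Real.exp (-(y ^ 20 / 10)) := by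
  filter_upwards [typeI hθ0 hθ, typeII hθ0 hθ, eventually_ge_atTop (2 : ℝ),
    ev_exp_pow (63 * 2 ^ 5) (1 / 40) (by norm_num) 350 20 (by norm_num) (ε := 1) (by norm_num)] with y h1 h2 hy2 hy3
  intro N hN f hf1 hf2 N' hNN' hN'
  have hy0 : (0 : ℝ) < y := by linarith
  have hy70 : (1000 : ℝ) ≤ y ^ 70 := by
    have h1 : (2 : ℝ) ^ 10 ≤ y ^ 10 := pow_le_pow_left₀ (by norm_num) hy2 10
    have h2 : y ^ 10 ≤ y ^ 70 := pow_le_pow_right₀ (by linarith) (by norm_num)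
    norm_num at h1
    linarith
  have hN0 : (0 : ℝ) < N := by rw [hN]; exact Real.exp_pos _
  have hN1 : 1 ≤ N := by
    have : 0 < N := by exact_mod_cast hN0
    omega
  have hN1R : (1 : ℝ) ≤ N := by exact_mod_cast hN1
  obtain ⟨U, hU⟩ : ∃ U : ℕ, U = ⌊Real.exp (y ^ 70 / 16)⌋₊ := ⟨_, rfl⟩
  have hUexp : 2 ≤ Real.exp (y ^ 70 / 16) := by
    have := Real.add_one_le_exp (y ^ 70 / 16)
    linarith
  have hU1 : 1 ≤ U := by
    rw [hU, Nat.one_le_floor_iff]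
    linarith
  have hUle : (U : ℝ) ≤ Real.exp (y ^ 70 / 16) := by rw [hU]; exact Nat.floor_le (Real.exp_nonneg _)
  have hUgt : Real.exp (y ^ 70 / 16) < U + 1 := by rw [hU]; exact Nat.lt_floor_add_one _
  have hU8 : ((U * U : ℕ) : ℝ) ≤ Real.exp (y ^ 70 / 8) := by
    push_cast
    calc (U : ℝ) * U ≤ Real.exp (y ^ 70 / 16) * Real.exp (y ^ 70 / 16) :=
          mul_le_mul hUle hUle (Nat.cast_nonneg _) (Real.exp_nonneg _)
      _ = _ := by rw [← Real.exp_add]; ring_nf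
  have hUN : U * U ≤ N := by
    have : ((U * U : ℕ) : ℝ) ≤ N := by
      refine hU8.trans ?_
      rw [hN]
      apply Real.exp_le_exp.2
      linarith
    exact_mod_cast this
  have hhalf : ∀ M : ℕ, U < 2 * M → Real.exp (y ^ 70 / 17) ≤ M := by
    intro M hM
    have h3 : (U : ℝ) + 1 ≤ 2 * M := by exact_mod_cast hM
    have h4 : (2 : ℝ) ≤ Real.exp (y ^ 70 / 16 - y ^ 70 / 17) := by
      have := Real.add_one_le_exp (y ^ 70 / 16 - y ^ 70 / 17)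
      linarith
    have h5 : 2 * Real.exp (y ^ 70 / 17) ≤ Real.exp (y ^ 70 / 16) := by
      calc 2 * Real.exp (y ^ 70 / 17) ≤ Real.exp (y ^ 70 / 16 - y ^ 70 / 17) * Real.exp (y ^ 70 / 17) := by gcongr
        _ = _ := by rw [← Real.exp_add]; ring_nf
    linarith
  obtain ⟨R, hR⟩ : ∃ R : ℝ, R = 6 * N * Real.exp (-(y ^ 20 / 8)) := ⟨_, rfl⟩
  have hR0 : 0 ≤ R := by rw [hR]; positivity
  obtain ⟨Y, hY⟩ : ∃ Y : ℕ → ℝ, Y = fun m : ℕ => 5 * ((N : ℝ) / (m : ℝ)) * Real.exp (-(y ^ 20 / 4)) := ⟨_, rfl⟩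
  have hY0 : ∀ m, 0 ≤ Y m := fun m => by rw [hY]; positivity
  obtain ⟨Lg, hLg⟩ : ∃ Lg : ℝ, Lg = 1 + Real.log (4 * N) := ⟨_, rfl⟩
  have hlogN : Real.log N = y ^ 70 := by rw [hN, Real.log_exp]
  have hlog4 : Real.log 4 ≤ 2 := by
    have h3 : Real.log 4 = 2 * Real.log 2 := by
      rw [show (4 : ℝ) = 2 ^ 2 by norm_num, Real.log_pow]
      norm_num
    have := Real.log_two_lt_d9
    linarith
  have hlog4' : 0 ≤ Real.log 4 := Real.log_nonneg (by norm_num)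
  have hLge : Lg = 1 + (Real.log 4 + y ^ 70) := by
    rw [hLg, Real.log_mul (by norm_num) hN0.ne', hlogN]
  have hLg1 : 1 ≤ Lg := by
    rw [hLge]
    linarith
  have hLg2 : Lg ≤ 2 * y ^ 70 := by
    rw [hLge]
    linarith
  have hv := Pool.Agent.H373R2.T7.vaughan_gen (fun n => ee (f * (n : ℝ) ^ θ)) N N' U hN1 hNN' hN' hU1 hUN Y R hR0 hY0 ?_ ?_
  · rw [← hLg] at hv
    refine hv.trans ?_
    have hs : ∑ m ∈ Icc 1 (U * U), Y m ≤ 5 * N * Lg * Real.exp (-(y ^ 20 / 4)) := by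
      have e1 : ∑ m ∈ Icc 1 (U * U), Y m = 5 * N * Real.exp (-(y ^ 20 / 4)) * ∑ m ∈ Icc 1 (U * U), (1 : ℝ) / m := by
        rw [hY, mul_sum]
        refine sum_congr rfl fun m _ => ?_
        ring
      rw [e1]
      have h3 := harm (U * U)
      have h4 : 1 + Real.log ((U * U : ℕ) : ℝ) ≤ Lg := by
        rw [hLge]
        have h5 : Real.log ((U * U : ℕ) : ℝ) ≤ y ^ 70 / 8 := by
          rw [Real.log_le_iff_le_exp (by exact_mod_cast Nat.mul_pos hU1 hU1)]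
          exact hU8
        linarith
      calc 5 * N * Real.exp (-(y ^ 20 / 4)) * ∑ m ∈ Icc 1 (U * U), (1 : ℝ) / m ≤
          5 * N * Real.exp (-(y ^ 20 / 4)) * Lg := by
            apply mul_le_mul_of_nonneg_left (h3.trans h4) (by positivity)
        _ = _ := by ring
    have hexp : Real.exp (-(y ^ 20 / 4)) ≤ Real.exp (-(y ^ 20 / 8)) := by
      apply Real.exp_le_exp.2
      have : 0 < y ^ 20 := by positivity
      linarith
    have hLg5 : Lg ^ 2 ≤ Lg ^ 5 := pow_le_pow_right₀ hLg1 (by norm_num)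
    have hLg0 : 0 < Lg := by linarith
    have hE0 : 0 < Real.exp (-(y ^ 20 / 8)) := Real.exp_pos _
    calc 8 * Lg ^ 5 * R + 3 * Lg * ∑ m ∈ Icc 1 (U * U), Y m ≤
        8 * Lg ^ 5 * (6 * N * Real.exp (-(y ^ 20 / 8))) + 3 * Lg * (5 * N * Lg * Real.exp (-(y ^ 20 / 4))) := by
          rw [hR]
          gcongr
      _ ≤ 8 * Lg ^ 5 * (6 * N * Real.exp (-(y ^ 20 / 8))) + 15 * N * (Lg ^ 2 * Real.exp (-(y ^ 20 / 8))) := by
          have : 3 * Lg * (5 * N * Lg * Real.exp (-(y ^ 20 / 4))) = 15 * N * (Lg ^ 2 * Real.exp (-(y ^ 20 / 4))) := by ring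
          rw [this]
          gcongr
      _ ≤ 8 * Lg ^ 5 * (6 * N * Real.exp (-(y ^ 20 / 8))) + 15 * N * (Lg ^ 5 * Real.exp (-(y ^ 20 / 8))) := by
          gcongr
      _ = N * (63 * Lg ^ 5 * Real.exp (-(y ^ 20 / 8))) := by ring
      _ ≤ N * (63 * (2 * y ^ 70) ^ 5 * Real.exp (-(y ^ 20 / 8))) := by gcongr
      _ = N * ((63 * 2 ^ 5 * y ^ 350 * Real.exp (-(1 / 40 * y ^ 20))) * Real.exp (-(y ^ 20 / 10))) := by
          have e2 : Real.exp (-(y ^ 20 / 8)) = Real.exp (-(1 / 40 * y ^ 20)) * Real.exp (-(y ^ 20 / 10)) := by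
            rw [← Real.exp_add]
            congr 1
            ring
          rw [e2]
          ring
      _ ≤ N * (1 * Real.exp (-(y ^ 20 / 10))) := by gcongr
      _ = _ := by ring
  · intro m hm b hb
    rw [mem_Icc] at hm
    rw [hY]
    refine h1 N hN f hf1 hf2 N' m b hN' hm.1 ?_ hb
    refine le_trans ?_ hU8
    exact_mod_cast hm.2
  · intro a b A₂ B₂ hA hB M L hM hL hUM hUL hML ha hb
    have h3 := h2 N hN f hf1 hf2 N' M L hN' (hhalf M hUM) (hhalf L hUL) hML a b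
    refine h3.trans ?_
    have hMLR : (M : ℝ) * L ≤ 2 * N := by exact_mod_cast hML.trans hN'
    have hM0 : (0 : ℝ) ≤ M := Nat.cast_nonneg _
    have hL0 : (0 : ℝ) ≤ L := Nat.cast_nonneg _
    have hbs : 0 ≤ ∑ l ∈ Ioc L (2 * L), ‖b l‖ ^ 2 := sum_nonneg fun _ _ => by positivity
    have e3 : R ^ 2 = 36 * (N : ℝ) ^ 2 * Real.exp (-(y ^ 20 / 4)) := by
      rw [hR, mul_pow, mul_pow, ← Real.exp_nat_mul]
      push_cast
      have : 2 * -(y ^ 20 / 8) = -(y ^ 20 / 4) := by ring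
      rw [this]
      norm_num
    calc (∑ m ∈ Ioc M (2 * M), ‖a m‖ ^ 2) * ((∑ l ∈ Ioc L (2 * L), ‖b l‖ ^ 2) *
          (8 * M * L * Real.exp (-(y ^ 20 / 4)))) ≤
        (A₂ * M) * ((B₂ * L) * (8 * M * L * Real.exp (-(y ^ 20 / 4)))) := by
          gcongr
      _ = A₂ * B₂ * (8 * (M * L) ^ 2 * Real.exp (-(y ^ 20 / 4))) := by ring
      _ ≤ A₂ * B₂ * (8 * (2 * N) ^ 2 * Real.exp (-(y ^ 20 / 4))) := by
          gcongr
      _ = A₂ * B₂ * (32 * (N : ℝ) ^ 2 * Real.exp (-(y ^ 20 / 4))) := by ring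
      _ ≤ A₂ * B₂ * (36 * (N : ℝ) ^ 2 * Real.exp (-(y ^ 20 / 4))) := by
          gcongr
          norm_num
      _ = _ := by rw [e3]

end Pool.Agent.X121.PR
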