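import Pool.Agent.X121.ZS.Fin

set_option autoImplicit false

/-! # Exponential sums with powers over subintervals of a dyadic interval -/

namespace Pool.Agent.X121.PR

open Finset Filter Pool.Agent.X121.ZS Pool.Agent.X121.AB
open Pool.Agent.Y93.VK (ee ee_add norm_ee)

theorem abs_sum (S : Finset ℕ) (f : ℝ) (g : ℕ → ℝ) :
    ‖∑ m ∈ S, ee (f * g m)‖ = ‖∑ m ∈ S, ee (|f| * g m)‖ := by
  rcases abs_choice f with h | h
  · rw [h]
  · rw [h, norm_neg_sum]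

theorem sum_Ioc_range (g : ℕ → ℂ) (a b : ℕ) :
    ∑ m ∈ Ioc a (a + b), g m = ∑ n ∈ range b, g (a + 1 + n) := by
  induction b with
  | zero => simp
  | succ b ih =>
    rw [sum_range_succ, ← ih, ← Nat.add_assoc, Finset.sum_Ioc_succ_top (by omega)]
    congr 2
    omega

theorem trivial_bd (S : Finset ℕ) (g : ℕ → ℝ) : ‖∑ m ∈ S, ee (g m)‖ ≤ S.card := by
  refine (norm_sum_le _ _).trans ?_
  simp [norm_ee]

/-- small frequencies -/
theorem low {θ : ℝ} (hθ0 : 0 < θ) (hθ : ∀ m : ℕ, θ ≠ m) {μ : ℝ} (hμ : 0 < μ) (hμ1 : μ ≤ 1 / 4) (C : ℝ)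
    (hC : 0 ≤ C) :
    ∃ ρ : ℝ, 0 < ρ ∧ ρ ≤ 1 ∧ ∃ M0 : ℕ, ∀ M : ℕ, M0 ≤ M → ∀ A B : ℕ, M ≤ A → A ≤ B → B ≤ 2 * M + 1 →
      ∀ f : ℝ, (M : ℝ) ^ (2 * μ) ≤ |f| * (M : ℝ) ^ θ → |f| ≤ (M : ℝ) ^ C →
      ‖∑ m ∈ Ioc A B, ee (f * (m : ℝ) ^ θ)‖ ≤ 2 * (M : ℝ) ^ (1 - ρ) := by
  obtain ⟨K, hK⟩ : ∃ K : ℕ, K = ⌈C + θ + 2⌉₊ := ⟨_, rfl⟩
  have hKc : C + θ + 2 ≤ K := by rw [hK]; exact Nat.le_ceil _
  obtain ⟨ρ, hρ, δ, hδ, M1, hM1, hcore⟩ := Pool.Agent.Y933.KD.VdC.core hθ K (by linarith) μ hμ hμ1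
  obtain ⟨ρ', hρ'⟩ : ∃ ρ' : ℝ, ρ' = min ρ 1 := ⟨_, rfl⟩
  have hρ'0 : 0 < ρ' := by rw [hρ']; exact lt_min hρ one_pos
  have hρ'1 : ρ' ≤ 1 := by rw [hρ']; exact min_le_right _ _
  have hρ'2 : ρ' ≤ ρ := by rw [hρ']; exact min_le_left _ _
  have t1 : Tendsto (fun M : ℕ => (M : ℝ)) atTop atTop := tendsto_natCast_atTop_atTop
  have e1 : ∀ᶠ M : ℕ in atTop, (4 : ℝ) ≤ (M : ℝ) ^ δ :=
    ((tendsto_rpow_atTop hδ).comp t1).eventually_ge_atTop 4
  have e2 : ∀ᶠ M : ℕ in atTop, (2 : ℝ) ^ (K + 2) ≤ (M : ℝ) ^ μ :=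
    ((tendsto_rpow_atTop hμ).comp t1).eventually_ge_atTop _
  obtain ⟨M2, hM2⟩ := eventually_atTop.1 (e1.and e2)
  refine ⟨ρ', hρ'0, hρ'1, max M1 (max M2 1), fun M hM A B hMA hAB hB f hf1 hf2 => ?_⟩
  have hMM1 : M1 ≤ M := (le_max_left _ _).trans hM
  have hMM2 : M2 ≤ M := ((le_max_left _ _).trans (le_max_right _ _)).trans hM
  have hM1' : 1 ≤ M := ((le_max_right _ _).trans (le_max_right _ _)).trans hM
  obtain ⟨h4, h5⟩ := hM2 M hMM2
  have hMR : (1 : ℝ) ≤ M := by exact_mod_cast hM1'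
  have hM0 : (0 : ℝ) < M := by linarith
  obtain ⟨F, hF⟩ : ∃ F, F = |f| := ⟨_, rfl⟩
  rw [abs_sum, ← hF]
  rw [← hF] at hf1 hf2
  have hMθ : (0 : ℝ) < (M : ℝ) ^ θ := Real.rpow_pos_of_pos hM0 _
  have hF0 : 0 < F := by
    have h1 : 0 < F * (M : ℝ) ^ θ := lt_of_lt_of_le (Real.rpow_pos_of_pos hM0 _) hf1
    exact pos_of_mul_pos_left h1 hMθ.le
  have hMc : (0 : ℝ) < ((M + 1 : ℕ) : ℝ) := by positivity
  have hMc1 : (1 : ℝ) ≤ ((M + 1 : ℕ) : ℝ) := by push_cast; linarith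
  have hMle : (M : ℝ) ≤ ((M + 1 : ℕ) : ℝ) := by push_cast; linarith
  have hMle2 : ((M + 1 : ℕ) : ℝ) ≤ 2 * M := by push_cast; linarith
  obtain ⟨Y, hY⟩ : ∃ Y : ℝ, Y = 2 * ((M + 1 : ℕ) : ℝ) := ⟨_, rfl⟩
  have hY0 : 0 < Y := by rw [hY]; positivity
  have hBA : A + (B - A) = B := by omega
  have hθK : θ - ((K : ℝ) + 1) ≤ 0 := by linarith
  have key := hcore (M + 1) (by omega) (M : ℝ) Y F ((A : ℝ) + 1) (B - A) (by omega) hM0
    (by have : (M : ℝ) ≤ A := by exact_mod_cast hMA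
        linarith)
    (by
      rw [hY, Nat.cast_sub hAB]
      have : (B : ℝ) ≤ 2 * M + 1 := by exact_mod_cast hB
      push_cast
      linarith)
    (by
      have h6 : (M : ℝ) ^ δ ≤ ((M + 1 : ℕ) : ℝ) ^ δ := Real.rpow_le_rpow hM0.le hMle hδ.le
      rw [hY]
      calc 2 * ((M + 1 : ℕ) : ℝ) ≤ M * 4 := by linarith
        _ ≤ M * ((M + 1 : ℕ) : ℝ) ^ δ := by
            apply mul_le_mul_of_nonneg_left _ hM0.le
            linarith)
    hF0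
    (by
      calc F * Y ^ (θ - ((K : ℝ) + 1)) ≤ ((M + 1 : ℕ) : ℝ) ^ C * ((M + 1 : ℕ) : ℝ) ^ (θ - ((K : ℝ) + 1)) := by
            have a1 : F ≤ ((M + 1 : ℕ) : ℝ) ^ C := hf2.trans (Real.rpow_le_rpow hM0.le hMle hC)
            have a2 : Y ^ (θ - ((K : ℝ) + 1)) ≤ ((M + 1 : ℕ) : ℝ) ^ (θ - ((K : ℝ) + 1)) :=
              Real.rpow_le_rpow_of_nonpos hMc (by rw [hY]; linarith) hθK
            exact mul_le_mul a1 a2 (by positivity) (by positivity)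
        _ = ((M + 1 : ℕ) : ℝ) ^ (C + (θ - ((K : ℝ) + 1))) := by rw [← Real.rpow_add hMc]
        _ ≤ ((M + 1 : ℕ) : ℝ) ^ (-μ) := Real.rpow_le_rpow_of_exponent_le hMc1 (by linarith))
    (by
      have a1 : Y ^ (θ - ((K : ℝ) + 1)) = Y ^ θ * (2 ^ (K + 1) * ((M + 1 : ℕ) : ℝ) ^ ((K : ℝ) + 1))⁻¹ := by
        rw [Real.rpow_sub hY0, div_eq_mul_inv]
        congr 2
        rw [hY, Real.mul_rpow (by norm_num) hMc.le]
        congr 1
        rw [← Real.rpow_natCast]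
        push_cast
        rfl
      have a2 : (M : ℝ) ^ θ ≤ Y ^ θ := Real.rpow_le_rpow hM0.le (by rw [hY]; linarith) hθ0.le
      have a3 : ((M + 1 : ℕ) : ℝ) ^ μ ≤ 2 * (M : ℝ) ^ μ := by
        calc ((M + 1 : ℕ) : ℝ) ^ μ ≤ (2 * M : ℝ) ^ μ := Real.rpow_le_rpow hMc.le hMle2 hμ.le
          _ = 2 ^ μ * (M : ℝ) ^ μ := Real.mul_rpow (by norm_num) hM0.le
          _ ≤ 2 * (M : ℝ) ^ μ := by
              apply mul_le_mul_of_nonneg_right _ (by positivity)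
              calc (2 : ℝ) ^ μ ≤ 2 ^ (1 : ℝ) := Real.rpow_le_rpow_of_exponent_le (by norm_num) (by linarith)
                _ = 2 := by norm_num
      have a4 : (M : ℝ) ^ (2 * μ) = (M : ℝ) ^ μ * (M : ℝ) ^ μ := by
        rw [← Real.rpow_add hM0]
        congr 1
        ring
      have a5 : 2 ^ (K + 1) * ((M + 1 : ℕ) : ℝ) ^ μ ≤ F * Y ^ θ := by
        calc 2 ^ (K + 1) * ((M + 1 : ℕ) : ℝ) ^ μ ≤ 2 ^ (K + 1) * (2 * (M : ℝ) ^ μ) := by gcongr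
          _ = 2 ^ (K + 2) * (M : ℝ) ^ μ := by ring
          _ ≤ (M : ℝ) ^ μ * (M : ℝ) ^ μ := by gcongr
          _ = (M : ℝ) ^ (2 * μ) := a4.symm
          _ ≤ F * (M : ℝ) ^ θ := hf1
          _ ≤ F * Y ^ θ := by gcongr
      have a6 : (0 : ℝ) < ((M + 1 : ℕ) : ℝ) ^ ((K : ℝ) + 1) := by positivity
      rw [a1, ← mul_assoc, ← div_eq_mul_inv, le_div_iff₀ (by positivity)]
      calc ((M + 1 : ℕ) : ℝ) ^ (-((K : ℝ) + 1) + μ) * (2 ^ (K + 1) * ((M + 1 : ℕ) : ℝ) ^ ((K : ℝ) + 1)) =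
          2 ^ (K + 1) * (((M + 1 : ℕ) : ℝ) ^ (-((K : ℝ) + 1) + μ) * ((M + 1 : ℕ) : ℝ) ^ ((K : ℝ) + 1)) := by ring
        _ = 2 ^ (K + 1) * ((M + 1 : ℕ) : ℝ) ^ μ := by
            rw [← Real.rpow_add hMc]
            congr 2
            ring
        _ ≤ _ := a5)
  have e3 : ∑ m ∈ Ioc A B, ee (F * (m : ℝ) ^ θ) =
      ∑ n ∈ range (B - A), Pool.Agent.H469R2.NK.e (F * ((A : ℝ) + 1 + n) ^ θ) := by
    conv_lhs => rw [← hBA]
    rw [sum_Ioc_range]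
    refine sum_congr rfl fun n _ => ?_
    rw [e_eq_ee]
    push_cast
    rfl
  rw [e3]
  refine key.trans ?_
  calc ((M + 1 : ℕ) : ℝ) ^ (1 - ρ) ≤ ((M + 1 : ℕ) : ℝ) ^ (1 - ρ') :=
        Real.rpow_le_rpow_of_exponent_le hMc1 (by linarith)
    _ ≤ (2 * M : ℝ) ^ (1 - ρ') := Real.rpow_le_rpow hMc.le hMle2 (by linarith)
    _ = 2 ^ (1 - ρ') * (M : ℝ) ^ (1 - ρ') := Real.mul_rpow (by norm_num) hM0.le
    _ ≤ 2 * (M : ℝ) ^ (1 - ρ') := by
        apply mul_le_mul_of_nonneg_right _ (by positivity)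
        calc (2 : ℝ) ^ (1 - ρ') ≤ 2 ^ (1 : ℝ) := Real.rpow_le_rpow_of_exponent_le (by norm_num) (by linarith)
          _ = 2 := by norm_num

theorem rootlog {A : ℕ} (hA : 1 ≤ A) : (A : ℝ) = Real.exp ((Real.log A ^ (1 / 70 : ℝ)) ^ 70) := by
  have hA0 : (0 : ℝ) < A := by exact_mod_cast hA
  have hlog : 0 ≤ Real.log A := Real.log_nonneg (by exact_mod_cast hA)
  have e : (Real.log A ^ (1 / 70 : ℝ)) ^ 70 = Real.log A := by
    rw [← Real.rpow_natCast, ← Real.rpow_mul hlog]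
    norm_num
  rw [e, Real.exp_log hA0]

/-- all frequencies -/
theorem one {θ : ℝ} (hθ0 : 0 < θ) (hθ : ∀ m : ℕ, θ ≠ m) {μ : ℝ} (hμ : 0 < μ) (hμ1 : μ ≤ 1 / 4) :
    ∀ᶠ Y : ℝ in atTop, ∀ M : ℕ, (M : ℝ) = Real.exp (Y ^ 70) → ∀ A B : ℕ, M ≤ A → A ≤ B →
      B ≤ 2 * M + 1 → ∀ f : ℝ, Real.exp (2 * μ * Y ^ 70) ≤ |f| * (M : ℝ) ^ θ →
      |f| ≤ Real.exp (Y ^ 79) →
      ‖∑ m ∈ Ioc A B, ee (f * (m : ℝ) ^ θ)‖ ≤ 5 * M * Real.exp (-(Y ^ 20)) := by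
  obtain ⟨ρ, hρ, hρ1, M0, hlow⟩ := low hθ0 hθ hμ hμ1 32 (by norm_num)
  obtain ⟨Y₁, hY₁⟩ := eventually_atTop.1 (zsum hθ0 hθ (η := 1 / 2) (by norm_num) (by norm_num))
  filter_upwards [eventually_ge_atTop (max Y₁ 2), eventually_ge_atTop ((M0 : ℝ)),
    ev_pow_ge 2 ρ hρ 50 (by norm_num)] with Y hY1 hYM hYρ
  intro M hM A B hMA hAB hB f hf1 hf2
  have hY2 : (2 : ℝ) ≤ Y := (le_max_right _ _).trans hY1
  have hYY₁ : Y₁ ≤ Y := (le_max_left _ _).trans hY1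
  have hY0 : (0 : ℝ) < Y := by linarith
  have hMexp : Y ≤ (M : ℝ) := by
    rw [hM]
    have h1 := Real.add_one_le_exp (Y ^ 70)
    have h2 : Y ≤ Y ^ 70 := le_self_pow₀ (by linarith) (by norm_num)
    linarith
  have hMR : (2 : ℝ) ≤ M := by linarith
  have hM2 : 2 ≤ M := by exact_mod_cast hMR
  have hM0' : (0 : ℝ) < M := by linarith
  have hMM0 : M0 ≤ M := by
    have : (M0 : ℝ) ≤ M := by linarith
    exact_mod_cast this
  have hY50 : (1 : ℝ) ≤ Y ^ 20 := one_le_pow₀ (by linarith)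
  have hrw : ∀ z : ℝ, (M : ℝ) ^ z = Real.exp (z * Y ^ 70) := by
    intro z
    rw [hM, ← Real.exp_mul, mul_comm]
  -- numerical facts
  have hbig : 4 * Y ^ 20 ≤ Y ^ 70 := by
    have h1 : (2 : ℝ) ^ 2 ≤ Y ^ 2 := pow_le_pow_left₀ (by norm_num) hY2 2
    have h3 : Y ^ 2 ≤ Y ^ 50 := pow_le_pow_right₀ (by linarith) (by norm_num)
    have h2 : Y ^ 70 = Y ^ 50 * Y ^ 20 := by ring
    rw [h2]
    apply mul_le_mul_of_nonneg_right _ (by positivity)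
    norm_num at h1
    linarith
  have hbig2 : (1000 : ℝ) ≤ Y ^ 70 := by
    have h1 : (2 : ℝ) ^ 10 ≤ Y ^ 10 := pow_le_pow_left₀ (by norm_num) hY2 10
    have h2 : Y ^ 10 ≤ Y ^ 70 := pow_le_pow_right₀ (by linarith) (by norm_num)
    norm_num at h1
    linarith
  have hsq : 4 * Real.exp (Y ^ 70 / 2) + 1 ≤ M * Real.exp (-(Y ^ 20)) := by
    have h1 : M * Real.exp (-(Y ^ 20)) = Real.exp (Y ^ 70 / 2) * Real.exp (Y ^ 70 / 2 - Y ^ 20) := by
      rw [hM, ← Real.exp_add, ← Real.exp_add]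
      have h0 : Y ^ 70 + -(Y ^ 20) = Y ^ 70 / 2 + (Y ^ 70 / 2 - Y ^ 20) := by ring
      rw [h0]
    refine le_trans ?_ h1.ge
    have h2 : (5 : ℝ) ≤ Real.exp (Y ^ 70 / 2 - Y ^ 20) := by
      have := Real.add_one_le_exp (Y ^ 70 / 2 - Y ^ 20)
      linarith
    have h3 : (1 : ℝ) ≤ Real.exp (Y ^ 70 / 2) := Real.one_le_exp (by positivity)
    nlinarith
  have hA1 : 1 ≤ A := by omega
  have hAM : (A : ℝ) ≤ 2 * M + 1 := by exact_mod_cast hAB.trans hB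
  have hMAR : (M : ℝ) ≤ A := by exact_mod_cast hMA
  by_cases hcase : (A : ℝ) ^ (16 : ℝ) ≤ |f|
  · -- high
    obtain ⟨YA, hYA⟩ : ∃ YA : ℝ, YA = Real.log A ^ (1 / 70 : ℝ) := ⟨_, rfl⟩
    have hAe : (A : ℝ) = Real.exp (YA ^ 70) := by rw [hYA]; exact rootlog hA1
    have hYA0 : 0 ≤ YA := by rw [hYA]; exact Real.rpow_nonneg (Real.log_nonneg (by exact_mod_cast hA1)) _
    have hYYA : Y ≤ YA := by
      have h1 : Y ^ 70 ≤ YA ^ 70 := by
        rw [← Real.exp_le_exp, ← hAe, ← hM]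
        exact hMAR
      exact le_of_pow_le_pow_left₀ (by norm_num) hYA0 h1
    have hz := hY₁ YA (hYY₁.trans hYYA) A hAe
    obtain ⟨B', hB'⟩ : ∃ B' : ℕ, B' = min B (2 * A) := ⟨_, rfl⟩
    have hAB' : A ≤ B' := by rw [hB']; exact le_min hAB (by omega)
    have hBB' : B' ≤ B := by rw [hB']; exact min_le_left _ _
    have hB2 : B ≤ B' + 1 := by
      rw [hB']
      rcases min_choice B (2 * A) with h | h
      · omega
      · omega
    have hsplit : ‖∑ m ∈ Ioc A B, ee (f * (m : ℝ) ^ θ)‖ ≤ ‖∑ m ∈ Ioc A B', ee (f * (m : ℝ) ^ θ)‖ + 1 := by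
      rw [← Finset.sum_Ioc_consecutive _ hAB' hBB']
      refine (norm_add_le _ _).trans ?_
      refine add_le_add le_rfl ?_
      refine (trivial_bd _ _).trans ?_
      rw [Nat.card_Ioc]
      exact_mod_cast (by omega : B - B' ≤ 1)
    have hexp20 : Real.exp (-(YA ^ 20)) ≤ Real.exp (-(Y ^ 20)) := by
      apply Real.exp_le_exp.2
      have : Y ^ 20 ≤ YA ^ 20 := pow_le_pow_left₀ hY0.le hYYA 20
      linarith
    have hHle : ((B' - A : ℕ) : ℝ) ≤ 2 * M := by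
      have h1 : B' - A ≤ M + 1 := by omega
      have h2 : ((B' - A : ℕ) : ℝ) ≤ M + 1 := by exact_mod_cast h1
      linarith
    have hmain : ‖∑ m ∈ Ioc A B', ee (f * (m : ℝ) ^ θ)‖ ≤ 2 * M * Real.exp (-(Y ^ 20)) + 2 * Real.exp (Y ^ 70 / 2) := by
      by_cases hH : Real.exp (1 / 2 * YA ^ 70) ≤ ((B' - A : ℕ) : ℝ)
      · have hz2 := hz (B' - A) hH (by rw [hB']; omega) f (by
          refine le_trans (le_of_eq ?_) hcase
          rw [hAe, ← Real.exp_mul]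
          congr 1
          norm_num
          ring) (hf2.trans (by
            apply Real.exp_le_exp.2
            exact pow_le_pow_left₀ hY0.le hYYA 79))
        have e1 : ∑ m ∈ Ioc A B', ee (f * (m : ℝ) ^ θ) =
            ∑ b ∈ Finset.Icc 1 (B' - A), ee (f * ((A + b : ℕ) : ℝ) ^ θ) := by
          have : B' = A + (B' - A) := by omega
          conv_lhs => rw [this]
          rw [sum_reindex]
        rw [e1]
        refine hz2.trans ?_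
        have h3 : ((B' - A : ℕ) : ℝ) * Real.exp (-(YA ^ 20)) ≤ 2 * M * Real.exp (-(Y ^ 20)) := by
          exact mul_le_mul hHle hexp20 (Real.exp_nonneg _) (by positivity)
        have h4 : 0 < Real.exp (Y ^ 70 / 2) := Real.exp_pos _
        linarith
      · push Not at hH
        have h1 := trivial_bd (Ioc A B') (fun m => f * (m : ℝ) ^ θ)
        rw [Nat.card_Ioc] at h1
        have h2 : Real.exp (1 / 2 * YA ^ 70) ≤ 2 * Real.exp (Y ^ 70 / 2) := by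
          have h5 : Real.exp (1 / 2 * YA ^ 70) ^ 2 = A := by
            rw [hAe, ← Real.exp_nat_mul]
            congr 1
            push_cast
            ring
          have h6 : (2 * Real.exp (Y ^ 70 / 2)) ^ 2 = 4 * M := by
            rw [mul_pow, hM, ← Real.exp_nat_mul]
            norm_num
            ring_nf
          apply le_of_pow_le_pow_left₀ (n := 2) (by norm_num) (by positivity)
          rw [h5, h6]
          linarith
        have h7 : (0 : ℝ) < 2 * M * Real.exp (-(Y ^ 20)) := by positivity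
        linarith
    have h8 : 0 < Real.exp (Y ^ 70 / 2) := Real.exp_pos _
    have h9 : (0 : ℝ) < M * Real.exp (-(Y ^ 20)) := by positivity
    linarith
  · -- low
    push Not at hcase
    have h1 := hlow M hMM0 A B hMA hAB hB f (by rw [hrw]; exact hf1) (by
      refine hcase.le.trans ?_
      have h2 : (A : ℝ) ≤ (M : ℝ) ^ (2 : ℝ) := by
        rw [Real.rpow_ofNat]
        have : (1000 : ℝ) ≤ M := by
          rw [hM]
          have := Real.add_one_le_exp (Y ^ 70)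
          linarith
        nlinarith
      calc (A : ℝ) ^ (16 : ℝ) ≤ ((M : ℝ) ^ (2 : ℝ)) ^ (16 : ℝ) :=
            Real.rpow_le_rpow (Nat.cast_nonneg _) h2 (by norm_num)
        _ = (M : ℝ) ^ (32 : ℝ) := by
            rw [← Real.rpow_mul hM0'.le]
            norm_num)
    refine h1.trans ?_
    have h3 : (M : ℝ) ^ (1 - ρ) = M * Real.exp (-(ρ * Y ^ 70)) := by
      rw [hrw, hM, ← Real.exp_add]
      congr 1
      ring
    rw [h3]
    have h4 : Real.exp (-(ρ * Y ^ 70)) ≤ Real.exp (-(Y ^ 20)) := by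
      apply Real.exp_le_exp.2
      have h5 : ρ * Y ^ 70 = ρ * Y ^ 50 * Y ^ 20 := by ring
      rw [h5]
      nlinarith
    have h6 : (0 : ℝ) < M * Real.exp (-(Y ^ 20)) := by positivity
    nlinarith

end Pool.Agent.X121.PR
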